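import Pool.Agent.Helper95.MI.CI

/-!
Consequences in terms of the degrees.
-/

set_option autoImplicit false

namespace Pool.Agent.Helper95.MI

open MvPolynomial Module

/-- The degree: the sum of all values of the h-vector. -/
noncomputable def deg (h : ℕ → ℕ) : ℕ := ∑ᶠ n, h n

theorem deg_eq {h : ℕ → ℕ} {N : ℕ} (hN : ∀ n ≥ N, h n = 0) :
    deg h = ∑ n ∈ Finset.range N, h n := by
  unfold deg
  refine finsum_eq_sum_of_support_subset _ ?_
  intro n hn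
  rw [Function.mem_support] at hn
  rw [Finset.coe_range, Set.mem_Iio]
  by_contra h0
  exact hn (hN n (by omega))

theorem sum_le_deg {h : ℕ → ℕ} (hf : (Function.support h).Finite) (M : ℕ) :
    ∑ n ∈ Finset.range M, h n ≤ deg h := by
  obtain ⟨N, hN⟩ := fin_zero hf
  have h1 : ∀ n ≥ max N M, h n = 0 := fun n hn => hN n (by omega)
  rw [deg_eq h1]
  exact Finset.sum_le_sum_of_subset (Finset.range_mono (le_max_right _ _))

/-- a refined form of `B ≤ s₂ d₁` -/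
theorem BB_add_le {h₁ h₂ : ℕ → ℕ} (hf : (Function.support h₁).Finite) (m : ℕ) :
    BB h₁ h₂ + (sh h₁ (sI h₂) m - min (sh h₁ (sI h₂) m) (sh h₂ (sI h₁) m)) ≤ sI h₂ * deg h₁ := by
  obtain ⟨N₁, hN₁⟩ := fin_zero hf
  set N := max (N₁ + sI h₂) (m + 1) with hNd
  have hN : ∀ n ≥ N, min (sh h₁ (sI h₂) n) (sh h₂ (sI h₁) n) = 0 := by
    intro n hn
    rw [sh_zero_of_large hN₁ (by omega), Nat.zero_min]
  rw [BB_eq hN]
  have hm : m ∈ Finset.range N := Finset.mem_range.2 (by omega)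
  calc ∑ n ∈ Finset.range N, min (sh h₁ (sI h₂) n) (sh h₂ (sI h₁) n) +
        (sh h₁ (sI h₂) m - min (sh h₁ (sI h₂) m) (sh h₂ (sI h₁) m))
      ≤ ∑ n ∈ Finset.range N, sh h₁ (sI h₂) n := by
        rw [← Finset.add_sum_erase _ _ hm, ← Finset.add_sum_erase _ (fun n => sh h₁ (sI h₂) n) hm]
        have := Finset.sum_le_sum (s := (Finset.range N).erase m)
          (f := fun n => min (sh h₁ (sI h₂) n) (sh h₂ (sI h₁) n))
          (g := fun n => sh h₁ (sI h₂) n) (fun n _ => min_le_left _ _)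
        omega
    _ ≤ sI h₂ * ∑ n ∈ Finset.range N, h₁ n := sum_sh_le _ _ _
    _ ≤ sI h₂ * deg h₁ := Nat.mul_le_mul_left _ (sum_le_deg hf N)

section

variable {k : Type*} [Field k] [Infinite k] {I₁ I₂ : Ideal (RR k)} {h₁ h₂ : ℕ → ℕ} {l : ℕ}

theorem onSurface_of_lt_mul (h1 : IsCurve I₁ h₁) (h2 : IsCurve I₂ h₂) (hd₁ : DecType h₁)
    (hd₂ : DecType h₂) (hl : InterLength I₁ I₂ l) (hlt : sI h₂ * deg h₁ < l) :
    OnSurface I₁ I₂ (m0 h₁ h₂) := by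
  apply onSurface_of_lt h1 h2 hl
  have e1 := rho_nonneg h1 h2 hd₁ hd₂
  have e2 := BB_add_le (h₂ := h₂) h1.finite 0
  have e3 : (BB h₁ h₂ : ℤ) ≤ sI h₂ * deg h₁ := by
    have : BB h₁ h₂ ≤ sI h₂ * deg h₁ := by omega
    exact_mod_cast this
  have e4 : ((sI h₂ * deg h₁ : ℕ) : ℤ) < l := by exact_mod_cast hlt
  push_cast at e4
  linarith

theorem onSurface_of_le_mul (h1 : IsCurve I₁ h₁) (h2 : IsCurve I₂ h₂) (hd₁ : DecType h₁)
    (hd₂ : DecType h₂) (hl : InterLength I₁ I₂ l) (ht : tI h₂ ≤ m0 h₁ h₂)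
    (hle : sI h₂ * deg h₁ ≤ l) : OnSurface I₁ I₂ (m0 h₁ h₂) := by
  apply onSurface_of_lt h1 h2 hl
  have s2 := (tI_mem h2).1
  have p1 := sI_pos h1
  have p2 := sI_pos h2
  have e2 := sh_lt (fun n => h_le h2 hd₂ n) (m := sI h₁) (n := m0 h₁ h₂) p1 (by
    have := h_lt_of_le h2 hd₂ ht
    omega)
  have e1 := sh_mono (fun n => h_le h1 hd₁ n) (sI h₂) (m0 h₁ h₂)
  rw [← xx_eq] at e1 e2
  rw [xx_symm] at e2
  have e3 := BB_add_le (h₂ := h₂) h1.finite (m0 h₁ h₂)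
  have e4 : ((sI h₂ * deg h₁ : ℕ) : ℤ) ≤ l := by exact_mod_cast hle
  set a := sh h₁ (sI h₂) (m0 h₁ h₂)
  set b := sh h₂ (sI h₁) (m0 h₁ h₂)
  set x := xx (sI h₁) (sI h₂) (m0 h₁ h₂)
  have e5 : (BB h₁ h₂ : ℤ) + (a - min a b) ≤ ((sI h₂ * deg h₁ : ℕ) : ℤ) := by
    have h0 : min a b ≤ a := min_le_left _ _
    have : ((BB h₁ h₂ + (a - min a b) : ℕ) : ℤ) ≤ ((sI h₂ * deg h₁ : ℕ) : ℤ) := by exact_mod_cast e3
    rw [Nat.cast_add, Nat.cast_sub h0] at this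
    push_cast at this ⊢
    exact this
  have e6 : (b : ℤ) < x := by exact_mod_cast e2
  have e7 := min_add_max (a : ℤ) (b : ℤ)
  have e8 : rho h₁ h₂ = (x : ℤ) - max (a : ℤ) (b : ℤ) := rfl
  push_cast at e5
  linarith

end

end Pool.Agent.Helper95.MI
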