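import Pool.Agent.Helper95.MI.Main

/-!
Complete intersections.
-/

set_option autoImplicit false

namespace Pool.Agent.Helper95.MI

open MvPolynomial Module

theorem ciH_eq (s t n : ℕ) :
    ciH s t n = ((Finset.range s).filter fun i => i ≤ n ∧ n - i < t).card := by
  classical
  unfold ciH
  refine Finset.card_bij (fun p _ => p.1) ?_ ?_ ?_
  · intro p hp
    simp only [Finset.mem_filter, Finset.mem_product, Finset.mem_range] at hp ⊢
    omega
  · intro p hp q hq h
    simp only [Finset.mem_filter, Finset.mem_product, Finset.mem_range] at hp hq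
    exact Prod.ext h (by omega)
  · intro i hi
    simp only [Finset.mem_filter, Finset.mem_range] at hi
    refine ⟨(i, n - i), ?_, rfl⟩
    simp only [Finset.mem_filter, Finset.mem_product, Finset.mem_range]
    omega

theorem ciH_lt {s t n : ℕ} (hst : s ≤ t) (hn : n < s) : ciH s t n = n + 1 := by
  rw [ciH_eq]
  have : (Finset.range s).filter (fun i => i ≤ n ∧ n - i < t) = Finset.range (n + 1) := by
    ext i
    simp only [Finset.mem_filter, Finset.mem_range]
    omega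
  rw [this, Finset.card_range]

theorem ciH_mid {s t n : ℕ} (hn : s ≤ n) (hn' : n < t) : ciH s t n = s := by
  rw [ciH_eq]
  have : (Finset.range s).filter (fun i => i ≤ n ∧ n - i < t) = Finset.range s := by
    ext i
    simp only [Finset.mem_filter, Finset.mem_range]
    omega
  rw [this, Finset.card_range]

theorem ciH_t {s t : ℕ} (hs : 1 ≤ s) (hst : s ≤ t) : ciH s t t = s - 1 := by
  rw [ciH_eq]
  have : (Finset.range s).filter (fun i => i ≤ t ∧ t - i < t) = Finset.Ico 1 s := by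
    ext i
    simp only [Finset.mem_filter, Finset.mem_range, Finset.mem_Ico]
    omega
  rw [this, Nat.card_Ico]

theorem sI_ciH {s t : ℕ} (hs : 1 ≤ s) (hst : s ≤ t) : sI (ciH s t) = s := by
  have h1 : ciH s t s < s + 1 := by
    rcases eq_or_lt_of_le hst with h | h
    · subst h
      rw [ciH_t hs le_rfl]
      omega
    · rw [ciH_mid le_rfl h]
      omega
  apply le_antisymm
  · exact Nat.sInf_le h1
  · refine le_csInf ⟨s, h1⟩ ?_
    intro n hn
    by_contra h
    rw [Set.mem_setOf_eq, ciH_lt hst (by omega)] at hn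
    omega

theorem tI_ciH {s t : ℕ} (hs : 1 ≤ s) (hst : s ≤ t) : tI (ciH s t) = t := by
  have h1 : t ∈ {n | sI (ciH s t) ≤ n ∧ ciH s t n < sI (ciH s t)} := by
    rw [Set.mem_setOf_eq, sI_ciH hs hst, ciH_t hs hst]
    omega
  apply le_antisymm
  · exact Nat.sInf_le h1
  · refine le_csInf ⟨t, h1⟩ ?_
    intro n hn
    by_contra h
    rw [Set.mem_setOf_eq, sI_ciH hs hst] at hn
    rw [ciH_mid hn.1 (by omega)] at hn
    omega

theorem sum_ciH (s t N : ℕ) : ∑ n ∈ Finset.range N, ciH s t n ≤ s * t := by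
  classical
  unfold ciH
  rw [← Finset.card_biUnion]
  · refine (Finset.card_le_card (t := Finset.range s ×ˢ Finset.range t) ?_).trans ?_
    · intro p hp
      rw [Finset.mem_biUnion] at hp
      obtain ⟨n, _, hp⟩ := hp
      exact (Finset.mem_filter.1 hp).1
    · rw [Finset.card_product, Finset.card_range, Finset.card_range]
  · intro a _ b _ hab
    rw [Function.onFun, Finset.disjoint_left]
    intro p hp hq
    exact hab ((Finset.mem_filter.1 hp).2.symm.trans (Finset.mem_filter.1 hq).2)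

theorem sum_sh_le (h : ℕ → ℕ) (m N : ℕ) :
    ∑ n ∈ Finset.range N, sh h m n ≤ m * ∑ n ∈ Finset.range N, h n := by
  unfold sh
  rw [Finset.sum_comm, ← smul_eq_mul, ← Finset.card_range m, ← Finset.sum_const,
    Finset.card_range]
  refine Finset.sum_le_sum fun j _ => ?_
  rw [← Finset.sum_filter]
  have : ∑ n ∈ (Finset.range N).filter (fun n => j ≤ n), h (n - j) =
      ∑ n ∈ ((Finset.range N).filter (fun n => j ≤ n)).image (fun n => n - j), h n := by
    rw [Finset.sum_image]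
    intro a ha b hb hab
    simp only [Finset.coe_filter, Set.mem_setOf_eq] at ha hb
    simp only at hab
    omega
  rw [this]
  refine Finset.sum_le_sum_of_subset ?_
  intro n hn
  simp only [Finset.mem_image, Finset.mem_filter, Finset.mem_range] at hn ⊢
  omega

section

variable {k : Type*} [Field k]

theorem BB_le_left {I₁ I₂ : Ideal (RR k)} {h₁ h₂ : ℕ → ℕ} (h1 : IsCurve I₁ h₁) {c : ℕ}
    (hc : ∀ N, ∑ n ∈ Finset.range N, h₁ n ≤ c) : BB h₁ h₂ ≤ sI h₂ * c := by
  obtain ⟨N₁, hN₁⟩ := fin_zero h1.finite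
  have hN : ∀ n ≥ N₁ + sI h₂, min (sh h₁ (sI h₂) n) (sh h₂ (sI h₁) n) = 0 := by
    intro n hn
    rw [sh_zero_of_large hN₁ hn, Nat.zero_min]
  rw [BB_eq hN]
  calc ∑ n ∈ Finset.range (N₁ + sI h₂), min (sh h₁ (sI h₂) n) (sh h₂ (sI h₁) n)
      ≤ ∑ n ∈ Finset.range (N₁ + sI h₂), sh h₁ (sI h₂) n :=
        Finset.sum_le_sum fun n _ => min_le_left _ _
    _ ≤ sI h₂ * ∑ n ∈ Finset.range (N₁ + sI h₂), h₁ n := sum_sh_le _ _ _
    _ ≤ sI h₂ * c := Nat.mul_le_mul_left _ (hc _)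

end

/-- the known maximal number of intersection points of complete intersection curves of types
`s₁ × t₁` and `s₂ × t₂`, `s₁ ≤ s₂` -/
def ciN (s₁ t₁ s₂ t₂ : ℕ) : ℕ :=
  if s₁ = s₂ then s₁ * t₁ * t₂ else if t₂ ≤ t₁ then s₁ * s₂ * t₂ else
    if s₂ < t₁ then s₁ * s₂ * t₁ else s₁ * t₁ * t₂

section

variable {k : Type*} [Field k] [Infinite k] {I₁ I₂ : Ideal (RR k)} {l : ℕ}

theorem ci_surface {s₁ t₁ s₂ t₂ : ℕ} (hs₁ : 1 ≤ s₁) (hst₁ : s₁ ≤ t₁) (hst₂ : s₂ ≤ t₂)
    (hs : s₁ ≤ s₂) (h1 : IsCurve I₁ (ciH s₁ t₁)) (h2 : IsCurve I₂ (ciH s₂ t₂))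
    (hd₁ : DecType (ciH s₁ t₁)) (hd₂ : DecType (ciH s₂ t₂))
    (hl : InterLength I₁ I₂ l) (hN : ciN s₁ t₁ s₂ t₂ ≤ l) :
    OnSurface I₁ I₂ (m0 (ciH s₁ t₁) (ciH s₂ t₂)) := by
  have hs₂ : 1 ≤ s₂ := by omega
  have e1 := sI_ciH hs₁ hst₁
  have e2 := sI_ciH hs₂ hst₂
  have f1 := tI_ciH hs₁ hst₁
  have f2 := tI_ciH hs₂ hst₂
  have b1 : BB (ciH s₁ t₁) (ciH s₂ t₂) ≤ s₂ * (s₁ * t₁) := by
    have := BB_le_left (I₂ := I₂) (h₂ := ciH s₂ t₂) h1 (fun N => sum_ciH s₁ t₁ N)
    rwa [e2] at this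
  have b2 : BB (ciH s₁ t₁) (ciH s₂ t₂) ≤ s₁ * (s₂ * t₂) := by
    have := BB_le_left (I₂ := I₁) (h₂ := ciH s₁ t₁) h2 (fun N => sum_ciH s₂ t₂ N)
    rwa [e1, BB_symm] at this
  have r0 := rho_nonneg h1 h2 hd₁ hd₂
  have r1 := rho_pos h1 h2 hd₁ hd₂
  rw [f1, f2] at r1
  have m1 := m0_mem (h₁ := ciH s₁ t₁) (h₂ := ciH s₂ t₂)
  rw [e1, e2, f1, f2] at m1
  apply onSurface_of_lt h1 h2 hl
  -- it suffices to compare with `ciN`
  have key : (BB (ciH s₁ t₁) (ciH s₂ t₂) < ciN s₁ t₁ s₂ t₂) ∨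
      (BB (ciH s₁ t₁) (ciH s₂ t₂) ≤ ciN s₁ t₁ s₂ t₂ ∧ t₁ ≤ m0 (ciH s₁ t₁) (ciH s₂ t₂) ∧
        t₂ ≤ m0 (ciH s₁ t₁) (ciH s₂ t₂)) := by
    unfold ciN
    split_ifs with c1 c2 c3
    · -- `s₁ = s₂`
      subst c1
      by_cases d1 : t₁ = s₁
      · by_cases d2 : t₂ = s₁
        · right
          refine ⟨?_, ?_, ?_⟩
          · subst d2
            rw [d1] at b1 ⊢
            calc _ ≤ t₂ * (t₂ * t₂) := b1
              _ = t₂ * t₂ * t₂ := by ring
          · rcases m1.1 with h | h <;> omega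
          · rcases m1.2 with h | h <;> omega
        · left
          rw [d1] at b1 ⊢
          have d3 : s₁ < t₂ := by omega
          calc _ ≤ s₁ * (s₁ * s₁) := b1
            _ = (s₁ * s₁) * s₁ := by ring
            _ < (s₁ * s₁) * t₂ := Nat.mul_lt_mul_of_pos_left d3 (by positivity)
      · left
        have d3 : s₁ < t₁ := by omega
        calc _ ≤ s₁ * (s₁ * t₂) := b2
          _ = (s₁ * t₂) * s₁ := by ring
          _ < (s₁ * t₂) * t₁ := Nat.mul_lt_mul_of_pos_left d3 (by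
              have : 1 ≤ t₂ := by omega
              positivity)
          _ = s₁ * t₁ * t₂ := by ring
    · -- `t₂ ≤ t₁`
      right
      refine ⟨?_, ?_, ?_⟩
      · calc _ ≤ s₁ * (s₂ * t₂) := b2
          _ = s₁ * s₂ * t₂ := by ring
      · rcases m1.1 with h | h
        · rcases m1.2 with h' | h' <;> omega
        · exact h
      · rcases m1.1 with h | h
        · rcases m1.2 with h' | h' <;> omega
        · omega
    · -- `s₂ < t₁ < t₂`
      right
      refine ⟨?_, ?_, ?_⟩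
      · calc _ ≤ s₂ * (s₁ * t₁) := b1
          _ = s₁ * s₂ * t₁ := by ring
      · rcases m1.1 with h | h
        · rcases m1.2 with h' | h' <;> omega
        · exact h
      · rcases m1.2 with h | h
        · rcases m1.1 with h' | h' <;> omega
        · exact h
    · -- `t₁ ≤ s₂`
      by_cases d2 : t₂ = s₂
      · right
        refine ⟨?_, ?_, ?_⟩
        · subst d2
          calc _ ≤ t₂ * (s₁ * t₁) := b1
            _ = s₁ * t₁ * t₂ := by ring
        · rcases m1.1 with h | h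
          · rcases m1.2 with h' | h' <;> omega
          · exact h
        · rcases m1.2 with h' | h' <;> omega
      · left
        have d3 : s₂ < t₂ := by omega
        calc _ ≤ s₂ * (s₁ * t₁) := b1
          _ = (s₁ * t₁) * s₂ := by ring
          _ < (s₁ * t₁) * t₂ := Nat.mul_lt_mul_of_pos_left d3 (by
              have : 1 ≤ t₁ := by omega
              positivity)
  rcases key with h | ⟨h, h3, h4⟩
  · have : (BB (ciH s₁ t₁) (ciH s₂ t₂) : ℤ) < ciN s₁ t₁ s₂ t₂ := by exact_mod_cast h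
    have h5 : (ciN s₁ t₁ s₂ t₂ : ℤ) ≤ l := by exact_mod_cast hN
    linarith
  · have h5 : (ciN s₁ t₁ s₂ t₂ : ℤ) ≤ l := by exact_mod_cast hN
    have h6 : (BB (ciH s₁ t₁) (ciH s₂ t₂) : ℤ) ≤ ciN s₁ t₁ s₂ t₂ := by exact_mod_cast h
    have h7 := r1 h3 h4
    linarith

end

end Pool.Agent.Helper95.MI
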