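import Pool.Agent.Helper95.MI.Irred

/-!
The inequalities for the Hilbert function of `I₁ + I₂`.
-/

set_option autoImplicit false

namespace Pool.Agent.Helper95.MI

open MvPolynomial Module

theorem sh_succ (h : ℕ → ℕ) (m n : ℕ) :
    sh h (m + 1) n = sh h m n + if m ≤ n then h (n - m) else 0 := by
  rw [sh, sh, Finset.sum_range_succ]

theorem sh_zero (h : ℕ → ℕ) (n : ℕ) : sh h 0 n = 0 := by
  rw [sh, Finset.sum_range_zero]

theorem sh_mono {h h' : ℕ → ℕ} (hh : ∀ n, h n ≤ h' n) (m n : ℕ) : sh h m n ≤ sh h' m n := by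
  unfold sh
  refine Finset.sum_le_sum fun j _ => ?_
  split_ifs
  · exact hh _
  · exact le_rfl

theorem sh_lt {h h' : ℕ → ℕ} (hh : ∀ n, h n ≤ h' n) {m n : ℕ} (hm : 1 ≤ m) (hn : h n < h' n) :
    sh h m n < sh h' m n := by
  unfold sh
  refine Finset.sum_lt_sum (fun j _ => ?_) ⟨0, Finset.mem_range.2 (by omega), ?_⟩
  · split_ifs
    · exact hh _
    · exact le_rfl
  · simpa using hn

theorem xx_eq (s t n : ℕ) : xx s t n = sh (fun m => min (m + 1) s) t n := by
  classical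
  rw [xx, sh, Finset.card_filter, Finset.sum_product_right]
  refine Finset.sum_congr rfl fun j _ => ?_
  rw [← Finset.card_filter]
  split_ifs with h
  · have : (Finset.range s).filter (fun i => i + j ≤ n) = Finset.range (min (n - j + 1) s) := by
      ext i
      simp only [Finset.mem_filter, Finset.mem_range]
      omega
    rw [this, Finset.card_range]
  · rw [Finset.card_eq_zero, Finset.filter_eq_empty_iff]
    intro i _
    omega

theorem xx_symm (s t n : ℕ) : xx s t n = xx t s n := by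
  classical
  unfold xx
  refine Finset.card_bij (fun p _ => (p.2, p.1)) ?_ ?_ ?_
  · intro p hp
    simp only [Finset.mem_filter, Finset.mem_product, Finset.mem_range] at hp ⊢
    omega
  · intro p _ q _ h
    simp only [Prod.mk.injEq] at h
    exact Prod.ext h.2 h.1
  · intro p hp
    simp only [Finset.mem_filter, Finset.mem_product, Finset.mem_range] at hp
    refine ⟨(p.2, p.1), ?_, rfl⟩
    simp only [Finset.mem_filter, Finset.mem_product, Finset.mem_range]
    omega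

theorem sh_zero_of_large {h : ℕ → ℕ} {N : ℕ} (hN : ∀ n ≥ N, h n = 0) {m n : ℕ} (hn : N + m ≤ n) :
    sh h m n = 0 := by
  unfold sh
  refine Finset.sum_eq_zero fun j hj => ?_
  rw [Finset.mem_range] at hj
  split_ifs
  · exact hN _ (by omega)
  · rfl

section

variable {k : Type*} [Field k]

/-- telescoping: first differences of the Hilbert function of `R/(I + (G))`, `deg G = m` -/
theorem tele {I : Ideal (RR k)} {h : ℕ → ℕ} (hI : IsCurve I h) (m n : ℕ) :
    (hilbZ I n - hilbZ I (n - 1)) - (hilbZ I (n - m) - hilbZ I (n - m - 1)) = sh h m n := by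
  induction m with
  | zero =>
    rw [sh_zero]
    push_cast
    rw [sub_zero]
    ring
  | succ m ih =>
    rw [sh_succ]
    have h1 : hvec I (n - m) = ((if m ≤ n then h (n - m) else 0 : ℕ) : ℤ) := by
      split_ifs with h0
      · have := hI.hvector (n - m)
        rw [Nat.cast_sub h0] at this
        exact this
      · rw [hvec_neg I _ (by omega)]
        rfl
    rw [hvec] at h1
    push_cast at h1 ih ⊢
    rw [← ih, ← h1, show (n : ℤ) - (m + 1) = n - m - 1 by ring,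
      show (n : ℤ) - m - 1 - 1 = n - m - 2 by ring]
    ring

theorem prime_reg {I : Ideal (RR k)} (hp : I.IsPrime) {F : RR k} (hF : F ∉ I) (x : RR k)
    (hx : F * x ∈ I) : x ∈ I := (hp.mem_or_mem hx).resolve_left hF

/-- the growth inequality -/
theorem diff_le [Infinite k] {I J : Ideal (RR k)} {h : ℕ → ℕ} (hI : IsCurve I h) {G : RR k}
    {s : ℕ} (hG : G.IsHomogeneous s) (hG0 : G ≠ 0) (hGI : G ∉ I) (hJ : I ⊔ Ideal.span {G} ≤ J)
    (n : ℕ) : hilbZ J n - hilbZ J (n - 1) ≤ sh h s n := by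
  obtain ⟨L, hL, hL0, hLr⟩ := exists_regular (noSocle_sup hI hGI)
  have h1 := pd_growth hJ hL hL0 hLr n
  rw [pd_sup_span hI.Hom hG hG0 (prime_reg hI.prime hGI),
    pd_sup_span hI.Hom hG hG0 (prime_reg hI.prime hGI)] at h1
  have h2 := tele hI s n
  rw [hilbZ_eq, hilbZ_eq, hilbZ_eq, hilbZ_eq] at h2
  rw [hilbZ_eq, hilbZ_eq, ← h2]
  have h3 : (n : ℤ) - 1 - s = n - s - 1 := by ring
  rw [h3] at h1
  linarith

/-- the loss in the first new degree -/
theorem diff_eq {I₁ I₂ : Ideal (RR k)} {h₁ h₂ : ℕ → ℕ} (h1 : IsCurve I₁ h₁) (h2 : IsCurve I₂ h₂)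
    {G : RR k} (hG : G.IsHomogeneous (sI h₂)) (hG0 : G ≠ 0) (hGI : G ∉ I₁) {m : ℕ}
    (hm : sI h₂ ≤ m) (hlt : ∀ n : ℤ, n < m → pd I₂ n = vd (n - sI h₂))
    (hinf : ∀ n : ℤ, n ≤ m → pd (I₁ ⊓ I₂) n = pd (I₁ ⊓ Ideal.span {G}) n) :
    hilbZ (I₁ ⊔ I₂) m - hilbZ (I₁ ⊔ I₂) (m - 1) =
      sh h₁ (sI h₂) m + sh h₂ (sI h₁) m - xx (sI h₁) (sI h₂) m := by
  have e1 := tele h1 (sI h₂) m
  rw [hilbZ_eq, hilbZ_eq, hilbZ_eq, hilbZ_eq] at e1
  have e2 : ∀ n : ℤ, n ≤ m → pd (I₁ ⊔ I₂) n = pd I₁ n + pd I₂ n - pd I₁ (n - sI h₂) := by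
    intro n hn
    have := pd_sup_inf h1.Hom h2.Hom n
    rw [hinf n hn, pd_inf_span hG hG0 (prime_reg h1.prime hGI)] at this
    omega
  have e3 := pd_new h2 hm hlt
  have e4 := hlt (m - 1) (by omega)
  -- `xx - sh h₂ = s₂ - h₂ m`
  have e5 : (xx (sI h₁) (sI h₂) m : ℤ) = sh h₂ (sI h₁) m + (sI h₂ - h₂ m) := by
    rw [xx_symm, xx_eq]
    obtain ⟨r, hr⟩ : ∃ r, sI h₁ = r + 1 := ⟨sI h₁ - 1, by have := sI_pos h1; omega⟩
    rw [hr]
    unfold sh
    rw [Finset.sum_range_succ', Finset.sum_range_succ']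
    have e6 : ∀ j ∈ Finset.range r, (if j + 1 ≤ m then min (m - (j + 1) + 1) (sI h₂) else 0) =
        if j + 1 ≤ m then h₂ (m - (j + 1)) else 0 := by
      intro j _
      split_ifs with h0
      · rcases lt_or_ge (m - (j + 1)) (sI h₂) with h3 | h3
        · rw [h_lt_s h2 h3]
          omega
        · have e7 := hlt (m - (j + 1) : ℕ) (by omega)
          have e8 := hlt ((m - (j + 1) : ℕ) - 1) (by omega)
          have e9 := hlt ((m - (j + 1) : ℕ) - 2) (by omega)
          have e10 := h2.hvector (m - (j + 1))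
          rw [hvec_eq I₂ _ (by omega), e7, e8, e9] at e10
          have e11 := vd_diff (n := (m - (j + 1) : ℕ) - sI h₂) (by omega)
          rw [show ((m - (j + 1) : ℕ) : ℤ) - sI h₂ - 1 = (m - (j + 1) : ℕ) - 1 - sI h₂ by ring,
            show ((m - (j + 1) : ℕ) : ℤ) - sI h₂ - 2 = (m - (j + 1) : ℕ) - 2 - sI h₂ by ring] at e11
          omega
      · rfl
    rw [Finset.sum_congr rfl e6]
    simp only [Nat.zero_le, if_true, Nat.sub_zero]
    have e7 : min (m + 1) (sI h₂) = sI h₂ := by omega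
    rw [e7]
    push_cast
    ring
  rw [hilbZ_eq, hilbZ_eq, e2 m le_rfl, e2 (m - 1) (by omega), e4, e5]
  have e6 : (m : ℤ) - 1 - sI h₂ = m - sI h₂ - 1 := by ring
  rw [e6]
  linarith

end

end Pool.Agent.Helper95.MI
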