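import Mathlib

/-!
Maximal intersections of integral ACM space curves (MP_7d33ba_ag): definitions.
-/

set_option autoImplicit false

namespace Pool.Agent.Helper95.MI

open MvPolynomial

section Curves

variable {k : Type*} [Field k]

/-- The Hilbert function of `R/I`, `R = k[x_0,..,x_3]`: the dimension of the image of the space of
forms of degree `n`. -/
noncomputable def hilb (I : Ideal (MvPolynomial (Fin 4) k)) (n : ℕ) : ℕ :=
  Module.finrank k
    ((homogeneousSubmodule (Fin 4) k n).map (Ideal.Quotient.mkₐ k I).toLinearMap)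

/-- The Hilbert function, extended by `0` to negative degrees. -/
noncomputable def hilbZ (I : Ideal (MvPolynomial (Fin 4) k)) (n : ℤ) : ℤ :=
  if 0 ≤ n then (hilb I n.toNat : ℤ) else 0

/-- The second difference of the Hilbert function. -/
noncomputable def hvec (I : Ideal (MvPolynomial (Fin 4) k)) (n : ℤ) : ℤ :=
  hilbZ I n - 2 * hilbZ I (n - 1) + hilbZ I (n - 2)

/-- `I` is the homogeneous ideal of an integral ACM curve of projective three-space with
h-vector `h`: a homogeneous prime ideal such that `R/I` has a regular sequence of two forms of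
positive degree and such that the second difference of the Hilbert function of `R/I` is the
function `h` (of finite support, so that `R/I` has dimension two). -/
structure IsCurve (I : Ideal (MvPolynomial (Fin 4) k)) (h : ℕ → ℕ) : Prop where
  homog : ∀ x ∈ I, ∀ n, homogeneousComponent n x ∈ I
  prime : I.IsPrime
  regular : ∃ f g : MvPolynomial (Fin 4) k, (∃ a, 0 < a ∧ f.IsHomogeneous a) ∧
    (∃ b, 0 < b ∧ g.IsHomogeneous b) ∧ (∀ x, f * x ∈ I → x ∈ I) ∧
    ∀ x, g * x ∈ I ⊔ Ideal.span {f} → x ∈ I ⊔ Ideal.span {f}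
  finite : (Function.support h).Finite
  hvector : ∀ n : ℕ, hvec I n = h n

/-- The scheme `C₁ ∩ C₂` has length `l`: the Hilbert function of `R/(I₁ + I₂)` is equal to `l` in
all large degrees. -/
def InterLength (I₁ I₂ : Ideal (MvPolynomial (Fin 4) k)) (l : ℕ) : Prop :=
  ∃ n₀, ∀ n ≥ n₀, hilb (I₁ ⊔ I₂) n = l

/-- Both curves lie on an integral surface of degree `m`. -/
def OnSurface (I₁ I₂ : Ideal (MvPolynomial (Fin 4) k)) (m : ℕ) : Prop :=
  ∃ S : MvPolynomial (Fin 4) k, Irreducible S ∧ S.IsHomogeneous m ∧ S ∈ I₁ ∧ S ∈ I₂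

end Curves

/-- Decreasing type. -/
def DecType (h : ℕ → ℕ) : Prop :=
  ∀ a, h (a + 1) < h a → ∀ n, a ≤ n → h (n + 1) < h n ∨ h n = 0

/-- The invariant `s`. -/
noncomputable def sI (h : ℕ → ℕ) : ℕ := sInf {n | h n < n + 1}

/-- The invariant `t`. -/
noncomputable def tI (h : ℕ → ℕ) : ℕ := sInf {n | sI h ≤ n ∧ h n < sI h}

/-- The number `m_0`. -/
noncomputable def m0 (h₁ h₂ : ℕ → ℕ) : ℕ :=
  sInf {m | (m = sI h₁ ∨ tI h₁ ≤ m) ∧ (m = sI h₂ ∨ tI h₂ ≤ m)}

/-- `sh h m n = h n + h (n-1) + ... + h (n-m+1)` (terms with negative argument are zero). -/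
def sh (h : ℕ → ℕ) (m n : ℕ) : ℕ := ∑ j ∈ Finset.range m, if j ≤ n then h (n - j) else 0

/-- The number of pairs `(i,j)` with `i < s`, `j < t`, `i + j ≤ n`. -/
def xx (s t n : ℕ) : ℕ := ((Finset.range s ×ˢ Finset.range t).filter fun p => p.1 + p.2 ≤ n).card

/-- The number `B`. -/
noncomputable def BB (h₁ h₂ : ℕ → ℕ) : ℕ :=
  ∑ᶠ n, min (sh h₁ (sI h₂) n) (sh h₂ (sI h₁) n)

/-- The number `ρ`. -/
noncomputable def rho (h₁ h₂ : ℕ → ℕ) : ℤ :=
  (xx (sI h₁) (sI h₂) (m0 h₁ h₂) : ℤ) -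
    max (sh h₁ (sI h₂) (m0 h₁ h₂) : ℤ) (sh h₂ (sI h₁) (m0 h₁ h₂))

/-- The h-vector of a complete intersection of type `s × t`. -/
def ciH (s t n : ℕ) : ℕ :=
  ((Finset.range s ×ˢ Finset.range t).filter fun p => p.1 + p.2 = n).card

end Pool.Agent.Helper95.MI
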