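import Pool.Agent.Helper95.MI.Defs

/-!
Graded pieces of homogeneous ideals of `k[x_0,..,x_3]`.
-/

set_option autoImplicit false

namespace Pool.Agent.Helper95.MI

open MvPolynomial Module

section

variable {k : Type*} [Field k]

/-- abbreviation for the ring -/
abbrev RR (k : Type*) [Field k] := MvPolynomial (Fin 4) k

/-- forms of degree `n` -/
noncomputable abbrev VV (k : Type*) [Field k] (n : ℕ) : Submodule k (RR k) :=
  homogeneousSubmodule (Fin 4) k n

theorem homog_eq_span (n : ℕ) :
    VV k n = Submodule.span k (Set.range fun e : {P : Fin 4 →₀ ℕ // P.sum (fun _ => id) = n} =>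
        (basisMonomials (Fin 4) k) e.1) := by
  have hdeg : ∀ P : Fin 4 →₀ ℕ, P.sum (fun _ => id) = P.degree := fun P => rfl
  apply le_antisymm
  · intro f hf
    rw [mem_homogeneousSubmodule] at hf
    rw [f.as_sum]
    refine Submodule.sum_mem _ fun e he => ?_
    have h1 : (monomial e (coeff e f) : MvPolynomial (Fin 4) k) =
        coeff e f • (basisMonomials (Fin 4) k) e := by
      rw [coe_basisMonomials, smul_monomial, smul_eq_mul, mul_one]
    rw [h1]
    refine Submodule.smul_mem _ _ (Submodule.subset_span ⟨⟨e, ?_⟩, rfl⟩)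
    rw [hdeg]
    by_contra h
    exact (mem_support_iff.1 he) (hf.coeff_eq_zero h)
  · rw [Submodule.span_le]
    rintro _ ⟨⟨e, he⟩, rfl⟩
    rw [SetLike.mem_coe, mem_homogeneousSubmodule, coe_basisMonomials]
    rw [hdeg] at he
    exact isHomogeneous_monomial 1 he

instance finV (n : ℕ) : FiniteDimensional k (VV k n) := by
  classical
  have : Finite {P : Fin 4 →₀ ℕ // P.sum (fun _ => id) = n} :=
    Finite.of_equiv _ (Sym.equivNatSum (Fin 4) n)
  rw [homog_eq_span]
  exact FiniteDimensional.span_of_finite k (Set.finite_range _)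

theorem finrank_V (n : ℕ) : finrank k (VV k n) = Nat.choose (n + 3) 3 := by
  classical
  have : Fintype {P : Fin 4 →₀ ℕ // P.sum (fun _ => id) = n} :=
    Fintype.ofEquiv _ (Sym.equivNatSum (Fin 4) n)
  rw [homog_eq_span, finrank_span_eq_card, ← Fintype.card_congr (Sym.equivNatSum (Fin 4) n),
    Sym.card_sym_eq_multichoose, Fintype.card_fin, Nat.multichoose_eq]
  · have h1 : 4 + n - 1 = n + 3 := by omega
    rw [h1, ← Nat.choose_symm (by omega : 3 ≤ n + 3)]
    congr 1
  · exact (basisMonomials (Fin 4) k).linearIndependent.comp Subtype.val Subtype.val_injective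

/-- the degree `n` piece of the ideal `I` -/
noncomputable def PP (I : Ideal (RR k)) (n : ℕ) : Submodule k (RR k) :=
  VV k n ⊓ I.restrictScalars k

theorem mem_PP {I : Ideal (RR k)} {n : ℕ} {x : RR k} :
    x ∈ PP I n ↔ x.IsHomogeneous n ∧ x ∈ I := Iff.rfl

instance finP (I : Ideal (RR k)) (n : ℕ) : FiniteDimensional k (PP I n) :=
  Submodule.finiteDimensional_of_le (inf_le_left : PP I n ≤ VV k n)

/-- dimension of the degree `n` piece, `n` any integer -/
noncomputable def pd (I : Ideal (RR k)) (n : ℤ) : ℤ :=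
  if 0 ≤ n then (finrank k (PP I n.toNat) : ℤ) else 0

/-- dimension of the space of forms, `n` any integer -/
noncomputable def vd (n : ℤ) : ℤ := if 0 ≤ n then (Nat.choose (n.toNat + 3) 3 : ℤ) else 0

theorem pd_nat (I : Ideal (RR k)) (n : ℕ) : pd I n = finrank k (PP I n) := by
  rw [pd, if_pos (Int.natCast_nonneg n), Int.toNat_natCast]

theorem pd_neg (I : Ideal (RR k)) {n : ℤ} (h : n < 0) : pd I n = 0 := by
  rw [pd, if_neg (by omega)]

theorem pd_nonneg (I : Ideal (RR k)) (n : ℤ) : 0 ≤ pd I n := by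
  rw [pd]
  split_ifs
  · exact Int.natCast_nonneg _
  · exact le_rfl

theorem vd_neg {n : ℤ} (h : n < 0) : vd n = 0 := by
  rw [vd, if_neg (by omega)]

theorem vd_nat (n : ℕ) : vd n = Nat.choose (n + 3) 3 := by
  rw [vd, if_pos (Int.natCast_nonneg n), Int.toNat_natCast]

theorem six_choose (n : ℕ) : 6 * Nat.choose (n + 3) 3 = (n + 1) * (n + 2) * (n + 3) := by
  induction n with
  | zero => rfl
  | succ m ih =>
    have h1 : Nat.choose (m + 1 + 3) 3 = Nat.choose (m + 3) 2 + Nat.choose (m + 3) 3 := by
      rw [show m + 1 + 3 = (m + 3) + 1 by omega, Nat.choose_succ_succ']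
    have h2 : 2 * Nat.choose (m + 3) 2 = (m + 3) * (m + 2) := by
      rw [Nat.choose_two_right]
      have : 2 ∣ (m + 3) * (m + 3 - 1) := by
        rw [show m + 3 - 1 = m + 2 by omega, mul_comm]
        exact (Nat.even_mul_succ_self (m + 2)).two_dvd
      rw [Nat.mul_div_cancel' this]
      congr 1
    rw [h1, Nat.mul_add, ih]
    nlinarith [h2]

theorem six_vd {n : ℤ} (h : -3 ≤ n) : 6 * vd n = (n + 1) * (n + 2) * (n + 3) := by
  rcases lt_or_ge n 0 with h0 | h0
  · rw [vd_neg h0]
    have : n = -3 ∨ n = -2 ∨ n = -1 := by omega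
    rcases this with h | h | h <;> subst h <;> norm_num
  · obtain ⟨m, rfl⟩ := Int.eq_ofNat_of_zero_le h0
    rw [vd_nat]
    exact_mod_cast six_choose m

theorem vd_diff {n : ℤ} (h : -1 ≤ n) : vd n - 2 * vd (n - 1) + vd (n - 2) = n + 1 := by
  have h1 := six_vd (n := n) (by omega)
  have h2 := six_vd (n := n - 1) (by omega)
  have h3 := six_vd (n := n - 2) (by omega)
  have : 6 * (vd n - 2 * vd (n - 1) + vd (n - 2)) = 6 * (n + 1) := by
    linear_combination h1 - 2 * h2 + h3
  omega

theorem hilb_eq (I : Ideal (RR k)) (n : ℕ) :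
    (hilb I n : ℤ) = vd n - finrank k (PP I n) := by
  have h1 : hilb I n + finrank k (PP I n) = finrank k (VV k n) := by
    let f : RR k →ₗ[k] (RR k ⧸ I) := (Ideal.Quotient.mkₐ k I).toLinearMap
    have h2 := LinearMap.finrank_range_add_finrank_ker (f.domRestrict (VV k n))
    have h3 : LinearMap.range (f.domRestrict (VV k n)) = (VV k n).map f := by
      rw [LinearMap.domRestrict, LinearMap.range_comp, Submodule.range_subtype]
    have h4 : finrank k (LinearMap.ker (f.domRestrict (VV k n))) = finrank k (PP I n) := by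
      have h5 : (LinearMap.ker (f.domRestrict (VV k n))).map (VV k n).subtype = PP I n := by
        ext x
        rw [Submodule.mem_map, mem_PP]
        constructor
        · rintro ⟨y, hy, rfl⟩
          refine ⟨y.2, ?_⟩
          rw [LinearMap.mem_ker, LinearMap.domRestrict_apply] at hy
          exact Ideal.Quotient.eq_zero_iff_mem.1 hy
        · rintro ⟨hx, hI⟩
          refine ⟨⟨x, hx⟩, ?_, rfl⟩
          rw [LinearMap.mem_ker, LinearMap.domRestrict_apply]
          exact Ideal.Quotient.eq_zero_iff_mem.2 hI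
      rw [← h5]
      exact (LinearEquiv.finrank_eq (Submodule.equivMapOfInjective _
        (Submodule.injective_subtype _) _))
    rw [h3, h4] at h2
    exact h2
  rw [vd_nat]
  have h6 := finrank_V (k := k) n
  rw [h6] at h1
  omega

theorem hilbZ_eq (I : Ideal (RR k)) (n : ℤ) : hilbZ I n = vd n - pd I n := by
  rcases lt_or_ge n 0 with h | h
  · rw [hilbZ, if_neg (by omega), vd_neg h, pd_neg I h, sub_zero]
  · obtain ⟨m, rfl⟩ := Int.eq_ofNat_of_zero_le h
    rw [hilbZ, if_pos h]
    have := hilb_eq I m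
    rw [pd_nat, Int.toNat_natCast]
    exact this

end

end Pool.Agent.Helper95.MI
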