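import Pool.Agent.Helper95.MI.Dim

/-!
Graded pieces of sums, intersections and principal ideals.
-/

set_option autoImplicit false

namespace Pool.Agent.Helper95.MI

open MvPolynomial Module

section

variable {k : Type*} [Field k]

/-- homogeneous ideals -/
def Hom (I : Ideal (RR k)) : Prop := ∀ x ∈ I, ∀ n, homogeneousComponent n x ∈ I

theorem hc_mul {f g : RR k} {d : ℕ} (hf : f.IsHomogeneous d) (m : ℕ) :
    homogeneousComponent (d + m) (f * g) = f * homogeneousComponent m g := by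
  have h1 : ∀ i, homogeneousComponent (d + m) (f * homogeneousComponent i g) =
      if i = m then f * homogeneousComponent m g else 0 := by
    intro i
    rw [homogeneousComponent_of_mem (n := d + i) (hf.mul (homogeneousComponent_isHomogeneous i g))]
    by_cases h : i = m
    · rw [if_pos h, if_pos (by omega), h]
    · rw [if_neg h, if_neg (by omega)]
  conv_lhs => rw [← sum_homogeneousComponent g, Finset.mul_sum, map_sum]
  rw [Finset.sum_congr rfl (fun i _ => h1 i), Finset.sum_ite_eq']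
  split_ifs with h
  · rfl
  · rw [homogeneousComponent_eq_zero, mul_zero]
    rw [Finset.mem_range] at h
    omega

theorem hc_mul_lt {f g : RR k} {d m : ℕ} (hf : f.IsHomogeneous d) (hm : m < d) :
    homogeneousComponent m (f * g) = 0 := by
  have h1 : ∀ i, homogeneousComponent m (f * homogeneousComponent i g) = 0 := by
    intro i
    rw [homogeneousComponent_of_mem (n := d + i) (hf.mul (homogeneousComponent_isHomogeneous i g)),
      if_neg (by omega)]
  rw [← sum_homogeneousComponent g, Finset.mul_sum, map_sum]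
  exact Finset.sum_eq_zero fun i _ => h1 i

theorem hc_self {f : RR k} {d : ℕ} (hf : f.IsHomogeneous d) : homogeneousComponent d f = f := by
  rw [homogeneousComponent_of_mem (n := d) hf, if_pos rfl]

theorem Hom.sup {I J : Ideal (RR k)} (hI : Hom I) (hJ : Hom J) : Hom (I ⊔ J) := by
  intro x hx n
  obtain ⟨y, hy, z, hz, rfl⟩ := Submodule.mem_sup.1 hx
  rw [map_add]
  exact Submodule.add_mem_sup (hI y hy n) (hJ z hz n)

theorem Hom.inf {I J : Ideal (RR k)} (hI : Hom I) (hJ : Hom J) : Hom (I ⊓ J) :=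
  fun x hx n => ⟨hI x hx.1 n, hJ x hx.2 n⟩

theorem Hom.span {F : RR k} {s : ℕ} (hF : F.IsHomogeneous s) : Hom (Ideal.span {F}) := by
  intro x hx n
  obtain ⟨y, rfl⟩ := Ideal.mem_span_singleton'.1 hx
  rw [mul_comm y F]
  rcases lt_or_ge n s with h | h
  · rw [hc_mul_lt hF h]
    exact Submodule.zero_mem _
  · obtain ⟨m, rfl⟩ := Nat.exists_eq_add_of_le h
    rw [hc_mul hF]
    exact Ideal.mul_mem_right _ _ (Ideal.mem_span_singleton_self F)

theorem PP_sup {I J : Ideal (RR k)} (hI : Hom I) (hJ : Hom J) (n : ℕ) :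
    PP (I ⊔ J) n = PP I n ⊔ PP J n := by
  apply le_antisymm
  · rintro x ⟨hx, hIJ⟩
    obtain ⟨y, hy, z, hz, hyz⟩ := Submodule.mem_sup.1 (show x ∈ I ⊔ J from hIJ)
    have h1 : x = homogeneousComponent n y + homogeneousComponent n z := by
      rw [← map_add, hyz, hc_self hx]
    rw [h1]
    exact Submodule.add_mem_sup ⟨homogeneousComponent_isHomogeneous n y, hI y hy n⟩
      ⟨homogeneousComponent_isHomogeneous n z, hJ z hz n⟩
  · refine sup_le ?_ ?_
    · rintro x ⟨hx, h⟩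
      exact ⟨hx, Ideal.mem_sup_left h⟩
    · rintro x ⟨hx, h⟩
      exact ⟨hx, Ideal.mem_sup_right h⟩

theorem PP_inf (I J : Ideal (RR k)) (n : ℕ) : PP (I ⊓ J) n = PP I n ⊓ PP J n := by
  ext x
  constructor
  · rintro ⟨h1, h2, h3⟩
    exact ⟨⟨h1, h2⟩, h1, h3⟩
  · rintro ⟨⟨h1, h2⟩, _, h3⟩
    exact ⟨h1, h2, h3⟩

theorem PP_mono {I J : Ideal (RR k)} (h : I ≤ J) (n : ℕ) : PP I n ≤ PP J n :=
  fun _ hx => ⟨hx.1, h hx.2⟩

theorem pd_mono {I J : Ideal (RR k)} (h : I ≤ J) (n : ℤ) : pd I n ≤ pd J n := by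
  rcases lt_or_ge n 0 with h0 | h0
  · rw [pd_neg I h0, pd_neg J h0]
  · obtain ⟨m, rfl⟩ := Int.eq_ofNat_of_zero_le h0
    rw [pd_nat, pd_nat]
    exact_mod_cast Submodule.finrank_mono (PP_mono h m)

theorem pd_sup_inf {I J : Ideal (RR k)} (hI : Hom I) (hJ : Hom J) (n : ℤ) :
    pd (I ⊔ J) n + pd (I ⊓ J) n = pd I n + pd J n := by
  rcases lt_or_ge n 0 with h0 | h0
  · simp only [pd_neg _ h0]
  · obtain ⟨m, rfl⟩ := Int.eq_ofNat_of_zero_le h0
    simp only [pd_nat]
    rw [PP_sup hI hJ, PP_inf]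
    exact_mod_cast Submodule.finrank_sup_add_finrank_inf_eq (PP I m) (PP J m)

/-- multiplication by `F` -/
noncomputable def mulF (F : RR k) : RR k →ₗ[k] RR k := LinearMap.mulLeft k F

theorem mulF_inj {F : RR k} (hF : F ≠ 0) : Function.Injective (mulF F) := by
  intro x y h
  exact mul_left_cancel₀ hF h

theorem hom_right {f g : RR k} {d e : ℕ} (h : (f * g).IsHomogeneous (d + e))
    (hf : f.IsHomogeneous d) (hf0 : f ≠ 0) : g.IsHomogeneous e := by
  have h1 := hc_mul hf e (g := g)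
  rw [hc_self h] at h1
  have h2 : g = homogeneousComponent e g := mul_left_cancel₀ hf0 h1
  rw [h2]
  exact homogeneousComponent_isHomogeneous e g

/-- `I ⊓ (F)` for a prime ideal not containing `F` (or for `I = ⊤`, with `hreg` trivial) -/
theorem PP_inf_span {I : Ideal (RR k)} {F : RR k} {s : ℕ} (hF : F.IsHomogeneous s) (hF0 : F ≠ 0)
    (hreg : ∀ x, F * x ∈ I → x ∈ I) (n : ℕ) :
    PP (I ⊓ Ideal.span {F}) (s + n) = (PP I n).map (mulF F) := by
  ext x
  rw [Submodule.mem_map]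
  constructor
  · rintro ⟨hx, hI, hs⟩
    obtain ⟨y, rfl⟩ := Ideal.mem_span_singleton'.1 hs
    rw [mul_comm] at hx hI
    exact ⟨y, ⟨hom_right hx hF hF0, hreg y hI⟩, mul_comm _ _⟩
  · rintro ⟨y, ⟨hy, hI⟩, rfl⟩
    exact ⟨hF.mul hy, Ideal.mul_mem_left _ _ hI,
      Ideal.mul_mem_right _ _ (Ideal.mem_span_singleton_self F)⟩

theorem PP_inf_span_lt {I : Ideal (RR k)} {F : RR k} {s : ℕ} (hF : F.IsHomogeneous s)
    {n : ℕ} (hn : n < s) : PP (I ⊓ Ideal.span {F}) n = ⊥ := by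
  rw [eq_bot_iff]
  rintro x ⟨hx, hI, hs⟩
  obtain ⟨y, rfl⟩ := Ideal.mem_span_singleton'.1 hs
  rw [mul_comm] at hx
  rw [Submodule.mem_bot, mul_comm, ← hc_self hx, hc_mul_lt hF hn]

theorem pd_inf_span {I : Ideal (RR k)} {F : RR k} {s : ℕ} (hF : F.IsHomogeneous s) (hF0 : F ≠ 0)
    (hreg : ∀ x, F * x ∈ I → x ∈ I) (n : ℤ) :
    pd (I ⊓ Ideal.span {F}) n = pd I (n - s) := by
  rcases lt_or_ge n s with h | h
  · rw [pd_neg I (by omega : n - (s : ℤ) < 0)]
    rcases lt_or_ge n 0 with h0 | h0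
    · rw [pd_neg _ h0]
    · obtain ⟨m, rfl⟩ := Int.eq_ofNat_of_zero_le h0
      rw [pd_nat, PP_inf_span_lt hF (by exact_mod_cast h), finrank_bot]
      rfl
  · obtain ⟨m, hm⟩ := Int.eq_ofNat_of_zero_le (sub_nonneg.2 h)
    have h1 : n = ((s + m : ℕ) : ℤ) := by
      push_cast
      omega
    rw [hm, h1, pd_nat, pd_nat, PP_inf_span hF hF0 hreg]
    exact_mod_cast (Submodule.equivMapOfInjective _ (mulF_inj hF0) (PP I m)).finrank_eq.symm

theorem pd_top (n : ℤ) : pd (⊤ : Ideal (RR k)) n = vd n := by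
  rcases lt_or_ge n 0 with h | h
  · rw [pd_neg _ h, vd_neg h]
  · obtain ⟨m, rfl⟩ := Int.eq_ofNat_of_zero_le h
    have h1 : PP (⊤ : Ideal (RR k)) m = VV k m := by
      ext x
      exact ⟨fun h => h.1, fun h => ⟨h, Submodule.mem_top⟩⟩
    rw [pd_nat, vd_nat, h1, finrank_V]

theorem pd_span {F : RR k} {s : ℕ} (hF : F.IsHomogeneous s) (hF0 : F ≠ 0) (n : ℤ) :
    pd (Ideal.span {F}) n = vd (n - s) := by
  have h := pd_inf_span (I := (⊤ : Ideal (RR k))) hF hF0 (fun _ _ => Submodule.mem_top) n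
  rw [top_inf_eq, pd_top] at h
  exact h

theorem pd_sup_span {I : Ideal (RR k)} {F : RR k} {s : ℕ} (hI : Hom I) (hF : F.IsHomogeneous s)
    (hF0 : F ≠ 0) (hreg : ∀ x, F * x ∈ I → x ∈ I) (n : ℤ) :
    pd (I ⊔ Ideal.span {F}) n = pd I n + vd (n - s) - pd I (n - s) := by
  have h1 := pd_sup_inf hI (Hom.span hF) n
  rw [pd_inf_span hF hF0 hreg, pd_span hF hF0] at h1
  omega

/-- growth of the quotient of two ideals, given a linear form regular modulo the smaller one -/
theorem pd_growth {Z J : Ideal (RR k)} (hZJ : Z ≤ J) {L : RR k} (hL : L.IsHomogeneous 1)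
    (hL0 : L ≠ 0) (hreg : ∀ x, L * x ∈ Z → x ∈ Z) (n : ℤ) :
    pd J (n - 1) - pd Z (n - 1) ≤ pd J n - pd Z n := by
  rcases lt_or_ge n 1 with h | h
  · rw [pd_neg J (by omega), pd_neg Z (by omega)]
    have := pd_mono hZJ n
    omega
  · obtain ⟨m, hm⟩ := Int.eq_ofNat_of_zero_le (sub_nonneg.2 h)
    have h1 : n = ((1 + m : ℕ) : ℤ) := by
      push_cast
      omega
    rw [hm, h1]
    simp only [pd_nat]
    have hinf : (PP J m).map (mulF L) ⊓ PP Z (1 + m) = (PP Z m).map (mulF L) := by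
      ext x
      constructor
      · rintro ⟨⟨y, hy, rfl⟩, hz⟩
        exact ⟨y, ⟨hy.1, hreg y hz.2⟩, rfl⟩
      · rintro ⟨y, hy, rfl⟩
        exact ⟨⟨y, ⟨hy.1, hZJ hy.2⟩, rfl⟩, hL.mul hy.1, Ideal.mul_mem_left _ _ hy.2⟩
    have hsup : (PP J m).map (mulF L) ⊔ PP Z (1 + m) ≤ PP J (1 + m) := by
      refine sup_le ?_ (PP_mono hZJ _)
      rintro _ ⟨y, hy, rfl⟩
      exact ⟨hL.mul hy.1, Ideal.mul_mem_left _ _ hy.2⟩
    have h2 := Submodule.finrank_sup_add_finrank_inf_eq ((PP J m).map (mulF L)) (PP Z (1 + m))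
    have h3 := Submodule.finrank_mono hsup
    have h4 := (Submodule.equivMapOfInjective _ (mulF_inj hL0) (PP J m)).finrank_eq
    have h5 := (Submodule.equivMapOfInjective _ (mulF_inj hL0) (PP Z m)).finrank_eq
    rw [hinf] at h2
    have h6 : finrank k (PP J m) + finrank k (PP Z (1 + m)) ≤
        finrank k (PP J (1 + m)) + finrank k (PP Z m) := by
      rw [h4, h5]
      omega
    have h7 : (finrank k (PP J m) : ℤ) + finrank k (PP Z (1 + m)) ≤
        finrank k (PP J (1 + m)) + finrank k (PP Z m) := by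
      exact_mod_cast h6
    linarith

end

end Pool.Agent.Helper95.MI
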