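import Pool.Agent.Helper95.MI.Regular

/-!
The invariants `s` and `t` of an integral ACM curve.
-/

set_option autoImplicit false

namespace Pool.Agent.Helper95.MI

open MvPolynomial Module

section

variable {k : Type*} [Field k]

theorem IsCurve.Hom {I : Ideal (RR k)} {h : ℕ → ℕ} (hI : IsCurve I h) : Hom I := hI.homog

theorem fin_zero {h : ℕ → ℕ} (hf : (Function.support h).Finite) : ∃ N, ∀ n ≥ N, h n = 0 := by
  obtain ⟨N, hN⟩ := hf.bddAbove
  refine ⟨N + 1, fun n hn => ?_⟩
  by_contra hne
  have := hN (Function.mem_support.2 hne)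
  omega

theorem sI_mem {h : ℕ → ℕ} (hf : (Function.support h).Finite) : h (sI h) < sI h + 1 := by
  obtain ⟨N, hN⟩ := fin_zero hf
  have : sI h ∈ {n | h n < n + 1} := Nat.sInf_mem ⟨N, by
    rw [Set.mem_setOf_eq, hN N le_rfl]
    omega⟩
  exact this

theorem lt_sI {h : ℕ → ℕ} {n : ℕ} (hn : n < sI h) : n + 1 ≤ h n := by
  have h1 : n ∉ {n | h n < n + 1} := Nat.notMem_of_lt_sInf hn
  rw [Set.mem_setOf_eq, not_lt] at h1
  exact h1

theorem hvec_eq (I : Ideal (RR k)) (n : ℤ) (hn : -1 ≤ n) :
    hvec I n = n + 1 - (pd I n - 2 * pd I (n - 1) + pd I (n - 2)) := by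
  rw [hvec, hilbZ_eq, hilbZ_eq, hilbZ_eq, ← vd_diff hn]
  ring

theorem hvec_neg (I : Ideal (RR k)) (n : ℤ) (hn : n < 0) : hvec I n = 0 := by
  rw [hvec, hilbZ, hilbZ, hilbZ, if_neg (by omega), if_neg (by omega), if_neg (by omega)]
  rfl

theorem pd_zero_of_prime {I : Ideal (RR k)} (hI : I.IsPrime) : pd I 0 = 0 := by
  have h1 : PP I 0 = ⊥ := by
    rw [eq_bot_iff]
    rintro x ⟨hx, hxI⟩
    rw [Submodule.mem_bot]
    by_contra h0
    have h2 : x.totalDegree = 0 := IsHomogeneous.totalDegree hx h0
    rw [totalDegree_eq_zero_iff_eq_C] at h2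
    rw [h2] at h0 hxI
    have h3 : coeff 0 x ≠ 0 := fun h => h0 (by rw [h, map_zero])
    apply hI.ne_top
    rw [Ideal.eq_top_iff_one]
    have h4 : (1 : RR k) = C (coeff 0 x)⁻¹ * C (coeff 0 x) := by
      rw [← map_mul, inv_mul_cancel₀ h3, map_one]
    rw [h4]
    exact I.mul_mem_left _ hxI
  have h2 := pd_nat I 0
  rw [h1, finrank_bot] at h2
  exact_mod_cast h2

section

variable {I : Ideal (RR k)} {h : ℕ → ℕ} (hI : IsCurve I h)

include hI

theorem sI_pos : 1 ≤ sI h := by
  by_contra h0
  have h1 : sI h = 0 := by omega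
  have h2 := sI_mem hI.finite
  rw [h1] at h2
  have h3 := hI.hvector 0
  rw [hvec_eq I _ (by norm_num)] at h3
  simp only [Nat.cast_zero] at h3
  rw [pd_zero_of_prime hI.prime, pd_neg I (by norm_num), pd_neg I (by norm_num)] at h3
  omega

theorem pd_lt_s : ∀ n : ℤ, n < sI h → pd I n = 0 := by
  have key : ∀ n : ℕ, n < sI h → pd I n = 0 := by
    intro n
    induction n using Nat.strong_induction_on with
    | _ n ih =>
      intro hn
      have h1 : ∀ m : ℤ, m < n → pd I m = 0 := by
        intro m hm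
        rcases lt_or_ge m 0 with h0 | h0
        · exact pd_neg I h0
        · obtain ⟨m', rfl⟩ := Int.eq_ofNat_of_zero_le h0
          exact ih m' (by exact_mod_cast hm) (by omega)
      have h2 := hI.hvector n
      rw [hvec_eq I _ (by omega), h1 (n - 1) (by omega), h1 (n - 2) (by omega)] at h2
      have h3 := lt_sI hn
      have h4 := pd_nonneg I n
      omega
  intro n hn
  rcases lt_or_ge n 0 with h0 | h0
  · exact pd_neg I h0
  · obtain ⟨m, rfl⟩ := Int.eq_ofNat_of_zero_le h0
    exact key m (by exact_mod_cast hn)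

theorem h_lt_s {n : ℕ} (hn : n < sI h) : h n = n + 1 := by
  have h2 := hI.hvector n
  rw [hvec_eq I _ (by omega), pd_lt_s hI _ (by omega), pd_lt_s hI _ (by omega),
    pd_lt_s hI _ (by omega)] at h2
  omega

theorem pd_s_pos : 0 < pd I (sI h) := by
  have h2 := hI.hvector (sI h)
  rw [hvec_eq I _ (by omega), pd_lt_s hI (sI h - 1) (by omega),
    pd_lt_s hI (sI h - 2) (by omega)] at h2
  have h3 := sI_mem hI.finite
  omega

theorem exists_F : ∃ F : RR k, F.IsHomogeneous (sI h) ∧ F ≠ 0 ∧ F ∈ I := by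
  have h1 := pd_s_pos hI
  rw [pd_nat] at h1
  have h2 : 0 < finrank k (PP I (sI h)) := by exact_mod_cast h1
  have h3 : PP I (sI h) ≠ ⊥ := by
    intro h0
    rw [h0, finrank_bot] at h2
    exact lt_irrefl _ h2
  obtain ⟨F, hF, hF0⟩ := Submodule.exists_mem_ne_zero_of_ne_bot h3
  exact ⟨F, hF.1, hF0, hF.2⟩

theorem tI_mem : sI h ≤ tI h ∧ h (tI h) < sI h := by
  obtain ⟨N, hN⟩ := fin_zero hI.finite
  have hs := sI_pos hI
  have : tI h ∈ {n | sI h ≤ n ∧ h n < sI h} := Nat.sInf_mem ⟨max N (sI h), by
    refine ⟨le_max_right _ _, ?_⟩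
    rw [hN _ (le_max_left _ _)]
    omega⟩
  exact this

omit hI in
theorem lt_tI {n : ℕ} (hn : n < tI h) (hs : sI h ≤ n) : sI h ≤ h n := by
  have h1 : n ∉ {n | sI h ≤ n ∧ h n < sI h} := Nat.notMem_of_lt_sInf hn
  rw [Set.mem_setOf_eq, not_and, not_lt] at h1
  exact h1 hs

/-- below degree `t` the ideal is generated by a form of degree `s` -/
theorem pd_lt_t {F : RR k} (hF : F.IsHomogeneous (sI h)) (hF0 : F ≠ 0) (hFI : F ∈ I) :
    ∀ n : ℤ, n < tI h → pd I n = vd (n - sI h) := by
  have hle : ∀ n : ℤ, vd (n - sI h) ≤ pd I n := by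
    intro n
    rw [← pd_span hF hF0]
    exact pd_mono ((Ideal.span_singleton_le_iff_mem I).2 hFI) n
  have key : ∀ n : ℕ, n < tI h → pd I n = vd (n - sI h) := by
    intro n
    induction n using Nat.strong_induction_on with
    | _ n ih =>
      intro hn
      rcases lt_or_ge n (sI h) with hs | hs
      · rw [pd_lt_s hI _ (by exact_mod_cast hs), vd_neg (by omega)]
      · have h1 : ∀ m : ℤ, m < n → pd I m = vd (m - sI h) := by
          intro m hm
          rcases lt_or_ge m 0 with h0 | h0
          · rw [pd_neg I h0, vd_neg (by omega)]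
          · obtain ⟨m', rfl⟩ := Int.eq_ofNat_of_zero_le h0
            exact ih m' (by exact_mod_cast hm) (by omega)
        have h2 := hI.hvector n
        rw [hvec_eq I _ (by omega), h1 (n - 1) (by omega), h1 (n - 2) (by omega)] at h2
        have h3 := lt_tI hn hs
        have h4 := hle n
        have h5 := vd_diff (n := n - sI h) (by omega)
        rw [show (n : ℤ) - sI h - 1 = n - 1 - sI h by ring,
          show (n : ℤ) - sI h - 2 = n - 2 - sI h by ring] at h5
        have h6 : (sI h : ℤ) ≤ h n := by exact_mod_cast h3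
        omega
  intro n hn
  rcases lt_or_ge n 0 with h0 | h0
  · rw [pd_neg I h0, vd_neg (by omega)]
  · obtain ⟨m, rfl⟩ := Int.eq_ofNat_of_zero_le h0
    exact key m (by exact_mod_cast hn)

theorem h_lt_t {n : ℕ} (hs : sI h ≤ n) (hn : n < tI h) : h n = sI h := by
  obtain ⟨F, hF, hF0, hFI⟩ := exists_F hI
  have h1 := pd_lt_t hI hF hF0 hFI
  have h2 := hI.hvector n
  rw [hvec_eq I _ (by omega), h1 n (by exact_mod_cast hn), h1 (n - 1) (by omega),
    h1 (n - 2) (by omega)] at h2
  have h5 := vd_diff (n := n - sI h) (by omega)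
  rw [show (n : ℤ) - sI h - 1 = n - 1 - sI h by ring,
    show (n : ℤ) - sI h - 2 = n - 2 - sI h by ring] at h5
  omega

/-- in the first new degree `m` (`s ≤ m`, ideal generated by `F` below `m`) -/
theorem pd_new {m : ℕ} (hm : sI h ≤ m) (hlt : ∀ n : ℤ, n < m → pd I n = vd (n - sI h)) :
    pd I m - vd (m - sI h) = sI h - h m := by
  have h2 := hI.hvector m
  rw [hvec_eq I _ (by omega), hlt (m - 1) (by omega), hlt (m - 2) (by omega)] at h2
  have h5 := vd_diff (n := m - sI h) (by omega)
  rw [show (m : ℤ) - sI h - 1 = m - 1 - sI h by ring,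
    show (m : ℤ) - sI h - 2 = m - 2 - sI h by ring] at h5
  omega

/-- a zero of the h-vector is followed by zeros -/
theorem h_zero_succ [Infinite k] {n : ℕ} (hn : h n = 0) : h (n + 1) = 0 := by
  obtain ⟨f, g, ⟨a, ha, hfa⟩, -, hf, -⟩ := hI.regular
  have hp := hI.prime
  have h0 : NoSocle I := by
    intro x hx
    by_contra hxI
    have h1 : ∀ i, X i * (1 : RR k) ∈ I := by
      intro i
      rw [mul_one]
      exact (hp.mem_or_mem (hx i)).resolve_right hxI
    exact hp.ne_top ((Ideal.eq_top_iff_one I).2 (hf 1 (mul_mem_of_socle h1 hfa ha)))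
  obtain ⟨L, hL, hL0, hLr⟩ := exists_regular h0
  have hLI : L ∉ I := fun h1 =>
    hp.ne_top ((Ideal.eq_top_iff_one I).2 (hLr 1 (by rwa [mul_one])))
  obtain ⟨M, hM, hM0, hMr⟩ := exists_regular (noSocle_sup hI hLI)
  have h1 := fun n => pd_sup_span hI.Hom hL hL0 hLr n
  have h2 := fun n => pd_sup_span (hI.Hom.sup (Hom.span hL)) hM hM0 hMr n
  have h3 : ∀ m : ℕ, vd m - pd (I ⊔ Ideal.span {L} ⊔ Ideal.span {M}) m = h m := by
    intro m
    have h4 := hI.hvector m
    rw [hvec, hilbZ_eq, hilbZ_eq, hilbZ_eq] at h4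
    rw [h2, h1, h1, ← h4]
    push_cast
    rw [show (m : ℤ) - 1 - 1 = m - 2 by ring]
    ring
  set J := I ⊔ Ideal.span {L} ⊔ Ideal.span {M} with hJ
  have h5 : PP J n = VV k n := by
    have h6 := h3 n
    rw [hn, vd_nat, pd_nat, ← finrank_V (k := k) n] at h6
    have h7 : finrank k (PP J n) = finrank k (VV k n) := by
      have : (finrank k (VV k n) : ℤ) = finrank k (PP J n) := by
        push_cast at h6
        linarith
      exact_mod_cast this.symm
    exact Submodule.eq_of_le_of_finrank_eq inf_le_left h7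
  have h6 : PP J (n + 1) = VV k (n + 1) := by
    refine le_antisymm inf_le_left fun x hx => ⟨hx, ?_⟩
    have h7 : ∀ m ∈ x.support, monomial m (coeff m x) ∈ J := by
      intro m hm
      have h8 : m.degree = n + 1 := by
        by_contra hne
        exact (mem_support_iff.1 hm) (IsHomogeneous.coeff_eq_zero hx hne)
      have h9 : m ≠ 0 := by
        rintro rfl
        simp at h8
      obtain ⟨i, hi⟩ := Finsupp.ne_iff.1 h9
      rw [Finsupp.zero_apply] at hi
      have h10 : m = (m - Finsupp.single i 1) + Finsupp.single i 1 := by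
        rw [tsub_add_cancel_of_le]
        rw [Finsupp.single_le_iff]
        omega
      have h11 : (m - Finsupp.single i 1).degree = n := by
        have := congrArg Finsupp.degree h10
        rw [map_add, h8, Finsupp.degree_single] at this
        omega
      have h12 : (monomial m (coeff m x) : RR k) =
          monomial (m - Finsupp.single i 1) (coeff m x) * X i := by
        rw [X, monomial_mul, mul_one, ← h10]
      rw [h12]
      refine J.mul_mem_right _ ?_
      have h13 : monomial (m - Finsupp.single i 1) (coeff m x) ∈ PP J n := by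
        rw [h5]
        exact isHomogeneous_monomial _ h11
      exact h13.2
    have h8 : x ∈ J := by
      rw [x.as_sum]
      exact J.sum_mem h7
    exact h8
  have h7 := h3 (n + 1)
  rw [vd_nat, pd_nat, h6, finrank_V] at h7
  omega

/-- the values of the h-vector are at most those of a surface of degree `s` -/
theorem h_lt_of_le [Infinite k] (hd : DecType h) {n : ℕ} (hn : tI h ≤ n) : h n < sI h := by
  have hs := sI_pos hI
  have ht := tI_mem hI
  have hprev : h (tI h - 1) = sI h := by
    rcases eq_or_lt_of_le ht.1 with h0 | h0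
    · rw [← h0, h_lt_s hI (by omega)]
      omega
    · exact h_lt_t hI (by omega) (by omega)
  have hdrop : h (tI h - 1 + 1) < h (tI h - 1) := by
    rw [hprev, show tI h - 1 + 1 = tI h by omega]
    exact ht.2
  have h1 : ∀ j : ℕ, h (tI h + j) < sI h := by
    intro j
    induction j with
    | zero => exact ht.2
    | succ j ih =>
      rcases hd _ hdrop (tI h + j) (by omega) with h3 | h3
      · exact lt_trans h3 ih
      · rw [← add_assoc, h_zero_succ hI h3]
        omega
  have := h1 (n - tI h)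
  rwa [show tI h + (n - tI h) = n by omega] at this

theorem h_le [Infinite k] (hd : DecType h) (n : ℕ) : h n ≤ min (n + 1) (sI h) := by
  have ht := tI_mem hI
  rcases lt_or_ge n (sI h) with h1 | h1
  · rw [h_lt_s hI h1]
    omega
  · rcases lt_or_ge n (tI h) with h2 | h2
    · rw [h_lt_t hI h1 h2]
      omega
    · have := h_lt_of_le hI hd h2
      omega

end

end

end Pool.Agent.Helper95.MI
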