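import Pool.Agent.Helper95.MI.Inv

/-!
Irreducibility of the first two generators.
-/

set_option autoImplicit false

namespace Pool.Agent.Helper95.MI

open MvPolynomial Module

section

variable {k : Type*} [Field k]

private theorem hc (f g : RR k) (n : ℕ) : homogeneousComponent n (f * g) =
    ∑ i ∈ Finset.range (f.totalDegree + 1), ∑ j ∈ Finset.range (g.totalDegree + 1),
      if i + j = n then homogeneousComponent i f * homogeneousComponent j g else 0 := by
  conv_lhs => rw [← sum_homogeneousComponent f, ← sum_homogeneousComponent g, Finset.sum_mul_sum,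
    map_sum]
  refine Finset.sum_congr rfl fun i _ => ?_
  rw [map_sum]
  refine Finset.sum_congr rfl fun j _ => ?_
  rw [homogeneousComponent_of_mem ((homogeneousComponent_isHomogeneous i f).mul
    (homogeneousComponent_isHomogeneous j g))]
  by_cases h : i + j = n
  · rw [if_pos h, if_pos h.symm]
  · rw [if_neg h, if_neg (Ne.symm h)]

/-- the highest component is not zero -/
private theorem top {f : RR k} (hf : f ≠ 0) : homogeneousComponent f.totalDegree f ≠ 0 := by
  classical
  intro h
  obtain ⟨b, hb, hbd⟩ := f.support.exists_mem_eq_sup (support_nonempty.mpr hf)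
    (fun s => s.sum fun _ e => e)
  have h1 : b.degree = f.totalDegree := by
    unfold totalDegree
    rw [hbd]
    rfl
  have h2 := coeff_homogeneousComponent f.totalDegree f b
  rw [h, coeff_zero, if_pos h1] at h2
  exact (mem_support_iff.mp hb) h2.symm

/-- the lowest component -/
private theorem low {f : RR k} (hf : f ≠ 0) : ∃ l, l ≤ f.totalDegree ∧
    homogeneousComponent l f ≠ 0 ∧ ∀ i, i < l → homogeneousComponent i f = 0 := by
  classical
  have hex : ∃ l, homogeneousComponent l f ≠ 0 := ⟨_, top hf⟩
  refine ⟨Nat.find hex, Nat.find_min' hex (top hf), Nat.find_spec hex, fun i hi => ?_⟩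
  by_contra h
  exact Nat.find_min hex hi h

/-- factors of homogeneous polynomials are homogeneous -/
theorem hom_of_mul {f g : RR k} {d : ℕ} (h : (f * g).IsHomogeneous d) (hf : f ≠ 0) (hg : g ≠ 0) :
    ∃ e e', f.IsHomogeneous e ∧ g.IsHomogeneous e' ∧ e + e' = d := by
  classical
  obtain ⟨l, hlF, hl, hl0⟩ := low hf
  obtain ⟨l', hlG, hl', hl0'⟩ := low hg
  -- highest component
  have h1 : homogeneousComponent (f.totalDegree + g.totalDegree) (f * g) =
      homogeneousComponent f.totalDegree f * homogeneousComponent g.totalDegree g := by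
    rw [hc, Finset.sum_eq_single f.totalDegree, Finset.sum_eq_single g.totalDegree, if_pos rfl]
    · intro j _ hj
      rw [if_neg (by omega)]
    · intro hj
      exact absurd (Finset.mem_range.mpr (Nat.lt_succ_self _)) hj
    · intro i hi hij
      refine Finset.sum_eq_zero fun j hj => ?_
      rw [Finset.mem_range] at hi hj
      rw [if_neg (by omega)]
    · intro hj
      exact absurd (Finset.mem_range.mpr (Nat.lt_succ_self _)) hj
  -- lowest component
  have h2 : homogeneousComponent (l + l') (f * g) =
      homogeneousComponent l f * homogeneousComponent l' g := by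
    rw [hc, Finset.sum_eq_single l, Finset.sum_eq_single l', if_pos rfl]
    · intro j _ hj
      rw [if_neg (by omega)]
    · intro hj
      exact absurd (Finset.mem_range.mpr (Nat.lt_succ_of_le hlG)) hj
    · intro i hi hij
      refine Finset.sum_eq_zero fun j hj => ?_
      split_ifs with hs
      · rcases lt_or_gt_of_ne hij with h3 | h3
        · rw [hl0 i h3, zero_mul]
        · rw [hl0' j (by omega), mul_zero]
      · rfl
    · intro hj
      exact absurd (Finset.mem_range.mpr (Nat.lt_succ_of_le hlF)) hj
  have h3 : f.totalDegree + g.totalDegree = d := by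
    by_contra hne
    rw [homogeneousComponent_of_mem h, if_neg hne] at h1
    exact (mul_ne_zero (top hf) (top hg)) h1.symm
  have h4 : l + l' = d := by
    by_contra hne
    rw [homogeneousComponent_of_mem h, if_neg hne] at h2
    exact (mul_ne_zero hl hl') h2.symm
  have key : ∀ {q : RR k} {n : ℕ}, n = q.totalDegree →
      (∀ i, i < n → homogeneousComponent i q = 0) → q.IsHomogeneous n := by
    intro q n hk hz
    have h5 : q = homogeneousComponent n q := by
      conv_lhs => rw [← sum_homogeneousComponent q]
      rw [Finset.sum_range_succ, Finset.sum_eq_zero, zero_add, hk]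
      intro i hi
      rw [Finset.mem_range, ← hk] at hi
      exact hz i hi
    rw [h5]
    exact homogeneousComponent_isHomogeneous n q
  exact ⟨l, l', key (by omega) hl0, key (by omega) hl0', h4⟩

theorem isUnit_of_deg_zero {f : RR k} (hf : f.IsHomogeneous 0) (h0 : f ≠ 0) : IsUnit f := by
  have h2 : f.totalDegree = 0 := IsHomogeneous.totalDegree hf h0
  rw [totalDegree_eq_zero_iff_eq_C] at h2
  rw [h2] at h0 ⊢
  have h3 : coeff 0 f ≠ 0 := fun h => h0 (by rw [h, map_zero])
  exact (isUnit_iff_ne_zero.2 h3).map C

/-- A homogeneous element of positive degree of a homogeneous prime ideal which is not a product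
of an element of smaller degree of the ideal with something is irreducible. -/
theorem irreducible_of_min {I : Ideal (RR k)} (hp : I.IsPrime) {S : RR k} {n : ℕ}
    (hS : S.IsHomogeneous n) (hSI : S ∈ I) (hS0 : S ≠ 0)
    (hmin : ∀ A : RR k, ∀ m < n, A.IsHomogeneous m → A ∈ I → ¬ A ∣ S) : Irreducible S := by
  have hnu : ¬ IsUnit S := fun hu => hp.ne_top (Ideal.eq_top_of_isUnit_mem I hSI hu)
  refine ⟨hnu, ?_⟩
  intro A B hAB
  have hA0 : A ≠ 0 := by
    rintro rfl
    exact hS0 (by rw [hAB, zero_mul])
  have hB0 : B ≠ 0 := by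
    rintro rfl
    exact hS0 (by rw [hAB, mul_zero])
  obtain ⟨e, e', he, he', hee⟩ := hom_of_mul (hAB ▸ hS) hA0 hB0
  rcases hp.mem_or_mem (hAB ▸ hSI : A * B ∈ I) with h1 | h1
  · right
    rcases lt_or_ge e n with h2 | h2
    · exact absurd ⟨B, hAB⟩ (hmin A e h2 he h1)
    · exact isUnit_of_deg_zero (by
        have : e' = 0 := by omega
        rwa [this] at he') hB0
  · left
    rcases lt_or_ge e' n with h2 | h2
    · exact absurd ⟨A, by rw [hAB, mul_comm]⟩ (hmin B e' h2 he' h1)
    · exact isUnit_of_deg_zero (by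
        have : e = 0 := by omega
        rwa [this] at he) hA0

section

variable {I : Ideal (RR k)} {h : ℕ → ℕ} (hI : IsCurve I h)

include hI

theorem PP_lt_s {n : ℕ} (hn : n < sI h) : PP I n = ⊥ := by
  have h1 := pd_lt_s hI n (by exact_mod_cast hn)
  rw [pd_nat] at h1
  exact Submodule.finrank_eq_zero.1 (by exact_mod_cast h1)

theorem irreducible_s {S : RR k} (hS : S.IsHomogeneous (sI h)) (hS0 : S ≠ 0) (hSI : S ∈ I) :
    Irreducible S := by
  refine irreducible_of_min hI.prime hS hSI hS0 ?_
  intro A m hm hA hAI hdvd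
  have h1 : A ∈ PP I m := ⟨hA, hAI⟩
  rw [PP_lt_s hI hm, Submodule.mem_bot] at h1
  rw [h1, zero_dvd_iff] at hdvd
  exact hS0 hdvd

theorem PP_lt_t {F : RR k} (hF : F.IsHomogeneous (sI h)) (hF0 : F ≠ 0) (hFI : F ∈ I) {n : ℕ}
    (hn : n < tI h) : PP I n = PP (Ideal.span {F}) n := by
  have h1 := pd_lt_t hI hF hF0 hFI n (by exact_mod_cast hn)
  rw [← pd_span hF hF0, pd_nat, pd_nat] at h1
  exact (Submodule.eq_of_le_of_finrank_eq
    (PP_mono ((Ideal.span_singleton_le_iff_mem I).2 hFI) n) (by exact_mod_cast h1.symm)).symm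

theorem irreducible_t {F : RR k} (hF : F.IsHomogeneous (sI h)) (hF0 : F ≠ 0) (hFI : F ∈ I)
    {S : RR k} (hS : S.IsHomogeneous (tI h)) (hSI : S ∈ I) (hSF : S ∉ Ideal.span {F}) :
    Irreducible S := by
  have hS0 : S ≠ 0 := by
    rintro rfl
    exact hSF (Submodule.zero_mem _)
  refine irreducible_of_min hI.prime hS hSI hS0 ?_
  intro A m hm hA hAI hdvd
  have h1 : A ∈ PP I m := ⟨hA, hAI⟩
  rw [PP_lt_t hI hF hF0 hFI hm] at h1
  obtain ⟨B, rfl⟩ := hdvd
  exact hSF (Ideal.mul_mem_right _ _ h1.2)

/-- a form of degree `< t` in `I` which is irreducible has degree `s` -/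
theorem deg_of_irreducible {S : RR k} {n : ℕ} (hS : S.IsHomogeneous n) (hSI : S ∈ I)
    (hirr : Irreducible S) : n = sI h ∨ tI h ≤ n := by
  rcases lt_or_ge n (tI h) with h1 | h1
  · left
    obtain ⟨F, hF, hF0, hFI⟩ := exists_F hI
    have h2 : S ∈ PP I n := ⟨hS, hSI⟩
    rw [PP_lt_t hI hF hF0 hFI h1] at h2
    obtain ⟨B, hB⟩ := Ideal.mem_span_singleton'.1 h2.2
    have hFu : ¬ IsUnit F := (irreducible_s hI hF hF0 hFI).1
    rcases hirr.2 hB.symm with h3 | h3
    · -- `B` is a unit
      have hB0 : B ≠ 0 := h3.ne_zero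
      obtain ⟨e, e', he, he', hee⟩ := hom_of_mul (hB.symm ▸ hS) hB0 hF0
      have h4 : e' = sI h := he'.inj_right hF hF0
      have h5 : e = 0 := by
        have h6 : B.totalDegree = 0 := by
          obtain ⟨u, hu⟩ := h3
          have h7 : B * (↑(u⁻¹) : RR k) = 1 := by rw [← hu]; simp
          have h8 := congrArg totalDegree h7
          rw [totalDegree_mul_of_isDomain hB0 (by
            intro h9
            rw [h9, mul_zero] at h7
            exact zero_ne_one h7), totalDegree_one] at h8
          omega
        have h7 := IsHomogeneous.totalDegree he hB0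
        omega
      omega
    · exact absurd h3 hFu
  · right
    exact h1

end

end

end Pool.Agent.Helper95.MI
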