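import Pool.Agent.Helper95.MI.Count

/-!
The main theorem for arbitrary h-vectors.
-/

set_option autoImplicit false

namespace Pool.Agent.Helper95.MI

open MvPolynomial Module

theorem m0_mem {h₁ h₂ : ℕ → ℕ} : (m0 h₁ h₂ = sI h₁ ∨ tI h₁ ≤ m0 h₁ h₂) ∧
    (m0 h₁ h₂ = sI h₂ ∨ tI h₂ ≤ m0 h₁ h₂) := by
  have : m0 h₁ h₂ ∈ {m | (m = sI h₁ ∨ tI h₁ ≤ m) ∧ (m = sI h₂ ∨ tI h₂ ≤ m)} :=
    Nat.sInf_mem ⟨max (tI h₁) (tI h₂), Or.inr (le_max_left _ _), Or.inr (le_max_right _ _)⟩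
  exact this

theorem m0_le {h₁ h₂ : ℕ → ℕ} {m : ℕ} (hm₁ : m = sI h₁ ∨ tI h₁ ≤ m)
    (hm₂ : m = sI h₂ ∨ tI h₂ ≤ m) : m0 h₁ h₂ ≤ m := Nat.sInf_le ⟨hm₁, hm₂⟩

theorem m0_symm (h₁ h₂ : ℕ → ℕ) : m0 h₁ h₂ = m0 h₂ h₁ := by
  apply le_antisymm
  · exact m0_le m0_mem.2 m0_mem.1
  · exact m0_le m0_mem.2 m0_mem.1

theorem m0_cases {h₁ h₂ : ℕ → ℕ} (h0 : 1 ≤ tI h₁) : m0 h₁ h₂ = sI h₁ ∨ m0 h₁ h₂ = sI h₂ ∨
    m0 h₁ h₂ = tI h₁ ∨ m0 h₁ h₂ = tI h₂ := by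
  by_contra hcon
  push Not at hcon
  obtain ⟨c1, c2, c3, c4⟩ := hcon
  have h1 := m0_mem (h₁ := h₁) (h₂ := h₂)
  have h2 := h1.1.resolve_left c1
  have h3 := h1.2.resolve_left c2
  have h4 : m0 h₁ h₂ ≤ m0 h₁ h₂ - 1 := m0_le (Or.inr (by omega)) (Or.inr (by omega))
  omega

theorem BB_symm (h₁ h₂ : ℕ → ℕ) : BB h₁ h₂ = BB h₂ h₁ := by
  unfold BB
  refine finsum_congr fun n => ?_
  rw [min_comm]

theorem rho_symm (h₁ h₂ : ℕ → ℕ) : rho h₁ h₂ = rho h₂ h₁ := by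
  unfold rho
  rw [m0_symm h₁ h₂, xx_symm, max_comm]

theorem InterLength.symm {k : Type*} [Field k] {I₁ I₂ : Ideal (RR k)} {l : ℕ}
    (h : InterLength I₁ I₂ l) : InterLength I₂ I₁ l := by
  unfold InterLength at h ⊢
  rwa [sup_comm]

theorem OnSurface.symm {k : Type*} [Field k] {I₁ I₂ : Ideal (RR k)} {m : ℕ}
    (h : OnSurface I₁ I₂ m) : OnSurface I₂ I₁ m := by
  obtain ⟨S, h1, h2, h3, h4⟩ := h
  exact ⟨S, h1, h2, h4, h3⟩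

theorem BB_eq {h₁ h₂ : ℕ → ℕ} {N : ℕ} (hN : ∀ n ≥ N, min (sh h₁ (sI h₂) n) (sh h₂ (sI h₁) n) = 0) :
    BB h₁ h₂ = ∑ n ∈ Finset.range N, min (sh h₁ (sI h₂) n) (sh h₂ (sI h₁) n) := by
  unfold BB
  refine finsum_eq_sum_of_support_subset _ ?_
  intro n hn
  rw [Function.mem_support] at hn
  rw [Finset.coe_range, Set.mem_Iio]
  by_contra h0
  exact hn (hN n (by omega))

section

variable {k : Type*} [Field k]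

theorem hilbZ_sum (J : Ideal (RR k)) (N : ℕ) :
    ∑ n ∈ Finset.range (N + 1), (hilbZ J n - hilbZ J ((n : ℤ) - 1)) = hilbZ J N := by
  induction N with
  | zero =>
    rw [Finset.sum_range_one]
    have : hilbZ J ((0 : ℕ) - 1 : ℤ) = 0 := by
      rw [hilbZ, if_neg (by norm_num)]
    rw [this, sub_zero]
  | succ N ih =>
    rw [Finset.sum_range_succ, ih]
    have : ((N + 1 : ℕ) : ℤ) - 1 = N := by
      push_cast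
      ring
    rw [this]
    ring

theorem sum_bound {J : Ideal (RR k)} {c : ℕ → ℕ} {N₀ : ℕ} (hc : ∀ n ≥ N₀, c n = 0)
    (hD : ∀ n : ℕ, hilbZ J n - hilbZ J ((n : ℤ) - 1) ≤ c n) {m : ℕ} {δ : ℤ}
    (hm : hilbZ J m - hilbZ J ((m : ℤ) - 1) ≤ c m - δ) {l : ℕ}
    (hl : ∃ n₀, ∀ n ≥ n₀, hilb J n = l) : (l : ℤ) ≤ (∑ n ∈ Finset.range N₀, c n : ℕ) - δ := by
  obtain ⟨n₀, hn₀⟩ := hl
  set N := max (max n₀ N₀) m with hN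
  have h1 := hilbZ_sum J N
  have h2 : hilbZ J N = l := by
    rw [hilbZ, if_pos (Int.natCast_nonneg _), Int.toNat_natCast, hn₀ N (by omega)]
  have h3 : ∑ n ∈ Finset.range (N + 1), c n = ∑ n ∈ Finset.range N₀, c n := by
    symm
    refine Finset.sum_subset (Finset.range_mono (by omega)) ?_
    intro n _ hn
    rw [Finset.mem_range] at hn
    exact hc n (by omega)
  have h4 : ∑ n ∈ Finset.range (N + 1), (hilbZ J n - hilbZ J ((n : ℤ) - 1)) ≤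
      (∑ n ∈ Finset.range (N + 1), (c n : ℤ)) - δ := by
    have hmem : m ∈ Finset.range (N + 1) := Finset.mem_range.2 (by omega)
    rw [← Finset.add_sum_erase _ _ hmem, ← Finset.add_sum_erase _ (fun n => (c n : ℤ)) hmem]
    have h5 := Finset.sum_le_sum (s := (Finset.range (N + 1)).erase m) (fun n _ => hD n)
    linarith
  rw [h1, h2] at h4
  rw [← h3]
  push_cast
  exact h4

section

variable [Infinite k] {I₁ I₂ : Ideal (RR k)} {h₁ h₂ : ℕ → ℕ} {l : ℕ}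

/-- the bound `B`, possibly with a loss -/
theorem bound (h1 : IsCurve I₁ h₁) (h2 : IsCurve I₂ h₂) (hl : InterLength I₁ I₂ l)
    {F₁ F₂ : RR k} (hF₁ : F₁.IsHomogeneous (sI h₁)) (hF₁0 : F₁ ≠ 0) (hF₁1 : F₁ ∈ I₁)
    (hF₁2 : F₁ ∉ I₂) (hF₂ : F₂.IsHomogeneous (sI h₂)) (hF₂0 : F₂ ≠ 0) (hF₂2 : F₂ ∈ I₂)
    (hF₂1 : F₂ ∉ I₁) :
    (l : ℤ) ≤ BB h₁ h₂ ∧ ((hilbZ (I₁ ⊔ I₂) (m0 h₁ h₂) - hilbZ (I₁ ⊔ I₂) ((m0 h₁ h₂ : ℤ) - 1) =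
      sh h₁ (sI h₂) (m0 h₁ h₂) + sh h₂ (sI h₁) (m0 h₁ h₂) - xx (sI h₁) (sI h₂) (m0 h₁ h₂)) →
      (l : ℤ) ≤ BB h₁ h₂ - rho h₁ h₂) := by
  obtain ⟨N₁, hN₁⟩ := fin_zero h1.finite
  have hN : ∀ n ≥ N₁ + sI h₂, min (sh h₁ (sI h₂) n) (sh h₂ (sI h₁) n) = 0 := by
    intro n hn
    rw [sh_zero_of_large hN₁ hn, Nat.zero_min]
  have hD : ∀ n : ℕ, hilbZ (I₁ ⊔ I₂) n - hilbZ (I₁ ⊔ I₂) ((n : ℤ) - 1) ≤
      (min (sh h₁ (sI h₂) n) (sh h₂ (sI h₁) n) : ℕ) := by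
    intro n
    have e1 := diff_le h1 hF₂ hF₂0 hF₂1 (J := I₁ ⊔ I₂)
      (sup_le_sup le_rfl ((Ideal.span_singleton_le_iff_mem I₂).2 hF₂2)) n
    have e2 := diff_le h2 hF₁ hF₁0 hF₁2 (J := I₁ ⊔ I₂)
      (sup_le le_sup_right (le_trans ((Ideal.span_singleton_le_iff_mem I₁).2 hF₁1) le_sup_left)) n
    push_cast
    exact le_min e1 e2
  rw [BB_eq hN]
  refine ⟨?_, fun hm => ?_⟩
  · have := sum_bound hN hD (m := 0) (δ := 0) (by simpa using hD 0) hl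
    rwa [sub_zero] at this
  · refine sum_bound hN hD (m := m0 h₁ h₂) (δ := rho h₁ h₂) ?_ hl
    rw [hm, rho]
    push_cast
    have := min_add_max (sh h₁ (sI h₂) (m0 h₁ h₂) : ℤ) (sh h₂ (sI h₁) (m0 h₁ h₂))
    linarith

/-- hypotheses of `diff_eq` at `m0`, if `m0` is `s₂` or `t₂` -/
theorem diff_m0 (h1 : IsCurve I₁ h₁) (h2 : IsCurve I₂ h₂) (hno : ¬ OnSurface I₁ I₂ (m0 h₁ h₂))
    {F₂ : RR k} (hF₂ : F₂.IsHomogeneous (sI h₂)) (hF₂0 : F₂ ≠ 0) (hF₂2 : F₂ ∈ I₂)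
    (hF₂1 : F₂ ∉ I₁) (hm : m0 h₁ h₂ = sI h₂ ∨ m0 h₁ h₂ = tI h₂) :
    hilbZ (I₁ ⊔ I₂) (m0 h₁ h₂) - hilbZ (I₁ ⊔ I₂) ((m0 h₁ h₂ : ℤ) - 1) =
      sh h₁ (sI h₂) (m0 h₁ h₂) + sh h₂ (sI h₁) (m0 h₁ h₂) - xx (sI h₁) (sI h₂) (m0 h₁ h₂) := by
  have ht := (tI_mem h2).1
  have hinf : ∀ n : ℕ, n ≤ m0 h₁ h₂ → PP (I₁ ⊓ I₂) n = PP (I₁ ⊓ Ideal.span {F₂}) n := by
    intro n hn
    refine le_antisymm ?_ (PP_mono (inf_le_inf le_rfl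
      ((Ideal.span_singleton_le_iff_mem I₂).2 hF₂2)) n)
    rintro S ⟨hS, hS1, hS2⟩
    by_contra hcon
    have hSF : S ∉ Ideal.span {F₂} := fun h => hcon ⟨hS, hS1, h⟩
    have hS0 : S ≠ 0 := by
      rintro rfl
      exact hSF (Submodule.zero_mem _)
    rcases lt_or_ge n (tI h₂) with h0 | h0
    · have h3 : S ∈ PP I₂ n := ⟨hS, hS2⟩
      rw [PP_lt_t h2 hF₂ hF₂0 hF₂2 h0] at h3
      exact hSF h3.2
    · have hn2 : n = m0 h₁ h₂ ∧ n = tI h₂ := by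
        rcases hm with hm | hm <;> omega
      rw [hn2.2] at hS
      have hirr := irreducible_t h2 hF₂ hF₂0 hF₂2 hS hS2 hSF
      apply hno
      rw [← hn2.1, hn2.2]
      exact ⟨S, hirr, hS, hS1, hS2⟩
  refine diff_eq h1 h2 hF₂ hF₂0 hF₂1 ?_ ?_ ?_
  · rcases hm with hm | hm <;> omega
  · intro n hn
    rcases hm with hm | hm
    · exact pd_lt_t h2 hF₂ hF₂0 hF₂2 n (by omega)
    · exact pd_lt_t h2 hF₂ hF₂0 hF₂2 n (by omega)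
  · intro n hn
    rcases lt_or_ge n 0 with h0 | h0
    · rw [pd_neg _ h0, pd_neg _ h0]
    · obtain ⟨n', rfl⟩ := Int.eq_ofNat_of_zero_le h0
      rw [pd_nat, pd_nat, hinf n' (by exact_mod_cast hn)]

theorem surface_of_mem (h1 : IsCurve I₁ h₁) (h2 : IsCurve I₂ h₂) {F₂ : RR k}
    (hF₂ : F₂.IsHomogeneous (sI h₂)) (hF₂0 : F₂ ≠ 0) (hF₂2 : F₂ ∈ I₂) (hF₂1 : F₂ ∈ I₁) :
    m0 h₁ h₂ = sI h₂ ∧ OnSurface I₁ I₂ (m0 h₁ h₂) := by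
  have hirr := irreducible_s h2 hF₂ hF₂0 hF₂2
  have e1 := deg_of_irreducible h1 hF₂ hF₂1 hirr
  have e2 : m0 h₁ h₂ ≤ sI h₂ := m0_le e1 (Or.inl rfl)
  have e3 := m0_mem (h₁ := h₁) (h₂ := h₂)
  have ht := (tI_mem h2).1
  have e4 : m0 h₁ h₂ = sI h₂ := by
    rcases e3.2 with h | h
    · exact h
    · omega
  refine ⟨e4, ?_⟩
  rw [e4]
  exact ⟨F₂, hirr, hF₂, hF₂1, hF₂2⟩

theorem rho_nonneg (h1 : IsCurve I₁ h₁) (h2 : IsCurve I₂ h₂) (hd₁ : DecType h₁)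
    (hd₂ : DecType h₂) : 0 ≤ rho h₁ h₂ := by
  have e1 := sh_mono (fun n => h_le h1 hd₁ n) (sI h₂) (m0 h₁ h₂)
  have e2 := sh_mono (fun n => h_le h2 hd₂ n) (sI h₁) (m0 h₁ h₂)
  rw [← xx_eq] at e1 e2
  rw [xx_symm] at e2
  unfold rho
  rw [sub_nonneg]
  exact max_le (by exact_mod_cast e1) (by exact_mod_cast e2)

theorem rho_pos (h1 : IsCurve I₁ h₁) (h2 : IsCurve I₂ h₂) (hd₁ : DecType h₁)
    (hd₂ : DecType h₂) (ht₁ : tI h₁ ≤ m0 h₁ h₂) (ht₂ : tI h₂ ≤ m0 h₁ h₂) : 1 ≤ rho h₁ h₂ := by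
  have s1 := (tI_mem h1).1
  have s2 := (tI_mem h2).1
  have p1 := sI_pos h1
  have p2 := sI_pos h2
  have e1 := sh_lt (fun n => h_le h1 hd₁ n) (m := sI h₂) (n := m0 h₁ h₂) p2 (by
    have := h_lt_of_le h1 hd₁ ht₁
    omega)
  have e2 := sh_lt (fun n => h_le h2 hd₂ n) (m := sI h₁) (n := m0 h₁ h₂) p1 (by
    have := h_lt_of_le h2 hd₂ ht₂
    omega)
  rw [← xx_eq] at e1 e2
  rw [xx_symm] at e2
  have : max (sh h₁ (sI h₂) (m0 h₁ h₂) : ℤ) (sh h₂ (sI h₁) (m0 h₁ h₂)) <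
      xx (sI h₁) (sI h₂) (m0 h₁ h₂) := max_lt (by exact_mod_cast e1) (by exact_mod_cast e2)
  unfold rho
  linarith

/-- **Main theorem**, first part. -/
theorem onSurface_of_lt (h1 : IsCurve I₁ h₁) (h2 : IsCurve I₂ h₂) (hl : InterLength I₁ I₂ l)
    (hlt : (BB h₁ h₂ : ℤ) - rho h₁ h₂ < l) : OnSurface I₁ I₂ (m0 h₁ h₂) := by
  obtain ⟨F₁, hF₁, hF₁0, hF₁1⟩ := exists_F h1
  obtain ⟨F₂, hF₂, hF₂0, hF₂2⟩ := exists_F h2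
  by_contra hno
  by_cases c2 : F₂ ∈ I₁
  · exact hno (surface_of_mem h1 h2 hF₂ hF₂0 hF₂2 c2).2
  by_cases c1 : F₁ ∈ I₂
  · have := (surface_of_mem h2 h1 hF₁ hF₁0 hF₁1 c1).2
    rw [m0_symm] at this
    exact hno this.symm
  have hb := bound h1 h2 hl hF₁ hF₁0 hF₁1 c1 hF₂ hF₂0 hF₂2 c2
  have hb' := bound h2 h1 hl.symm hF₂ hF₂0 hF₂2 c2 hF₁ hF₁0 hF₁1 c1
  have hno' : ¬ OnSurface I₂ I₁ (m0 h₂ h₁) := by
    rw [m0_symm]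
    exact fun h => hno h.symm
  have ht1 := (tI_mem h1).1
  have hs1 := sI_pos h1
  rcases m0_cases (h₁ := h₁) (h₂ := h₂) (by omega) with c | c | c | c
  · have e := hb'.2 (diff_m0 h2 h1 hno' hF₁ hF₁0 hF₁1 c1 (Or.inl (by rw [m0_symm, c])))
    rw [BB_symm, rho_symm] at e
    linarith
  · have e := hb.2 (diff_m0 h1 h2 hno hF₂ hF₂0 hF₂2 c2 (Or.inl c))
    linarith
  · have e := hb'.2 (diff_m0 h2 h1 hno' hF₁ hF₁0 hF₁1 c1 (Or.inr (by rw [m0_symm, c])))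
    rw [BB_symm, rho_symm] at e
    linarith
  · have e := hb.2 (diff_m0 h1 h2 hno hF₂ hF₂0 hF₂2 c2 (Or.inr c))
    linarith

/-- **Main theorem**, second part. -/
theorem le_BB (h1 : IsCurve I₁ h₁) (h2 : IsCurve I₂ h₂) (hl : InterLength I₁ I₂ l)
    (hm₁ : sI h₁ < m0 h₁ h₂) (hm₂ : sI h₂ < m0 h₁ h₂) : l ≤ BB h₁ h₂ := by
  obtain ⟨F₁, hF₁, hF₁0, hF₁1⟩ := exists_F h1
  obtain ⟨F₂, hF₂, hF₂0, hF₂2⟩ := exists_F h2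
  have c2 : F₂ ∉ I₁ := by
    intro c2
    have := (surface_of_mem h1 h2 hF₂ hF₂0 hF₂2 c2).1
    omega
  have c1 : F₁ ∉ I₂ := by
    intro c1
    have := (surface_of_mem h2 h1 hF₁ hF₁0 hF₁1 c1).1
    rw [m0_symm] at this
    omega
  exact_mod_cast (bound h1 h2 hl hF₁ hF₁0 hF₁1 c1 hF₂ hF₂0 hF₂2 c2).1

end

end

end Pool.Agent.Helper95.MI
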