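import Pool.Agent.Helper95.MI.Graded

/-!
Linear forms regular modulo an ideal without socle.
-/

set_option autoImplicit false

namespace Pool.Agent.Helper95.MI

open MvPolynomial Module

section

variable {k : Type*} [Field k]

/-- no element outside `Z` is multiplied into `Z` by all variables -/
def NoSocle (Z : Ideal (RR k)) : Prop := ∀ x, (∀ i, X i * x ∈ Z) → x ∈ Z

theorem mul_mem_of_socle {Z : Ideal (RR k)} {x : RR k} (h : ∀ i, X i * x ∈ Z) {f : RR k} {a : ℕ}
    (hf : f.IsHomogeneous a) (ha : 0 < a) : f * x ∈ Z := by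
  have h1 : f ∈ Ideal.span (X '' (Set.univ : Set (Fin 4)) : Set (RR k)) := by
    rw [mem_ideal_span_X_image]
    intro m hm
    by_contra hcon
    push Not at hcon
    have h2 : m = 0 := by
      ext i
      exact hcon i (Set.mem_univ i)
    have h3 := hf (mem_support_iff.1 hm)
    rw [h2] at h3
    simp at h3
    omega
  refine Submodule.span_induction (p := fun f _ => f * x ∈ Z) ?_ ?_ ?_ ?_ h1
  · rintro _ ⟨i, _, rfl⟩
    exact h i
  · rw [zero_mul]
    exact Z.zero_mem
  · intro y z _ _ hy hz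
    rw [add_mul]
    exact Z.add_mem hy hz
  · intro c y _ hy
    rw [smul_eq_mul, mul_assoc]
    exact Z.mul_mem_left c hy

/-- the depth of `R/(I + (G))` is positive if `R/I` is a domain of depth at least two -/
theorem noSocle_sup {I : Ideal (RR k)} {h : ℕ → ℕ} (hI : IsCurve I h) {G : RR k}
    (hG : G ∉ I) : NoSocle (I ⊔ Ideal.span {G}) := by
  intro x hx
  obtain ⟨f, g, ⟨a, ha, hfa⟩, ⟨b, hb, hgb⟩, hf, hg⟩ := hI.regular
  have hp := hI.prime
  have h1 := mul_mem_of_socle hx hfa ha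
  have h2 := mul_mem_of_socle hx hgb hb
  obtain ⟨i, hi, z, hz, h3⟩ := Submodule.mem_sup.1 h1
  obtain ⟨y, rfl⟩ := Ideal.mem_span_singleton'.1 hz
  obtain ⟨i', hi', z', hz', h4⟩ := Submodule.mem_sup.1 h2
  obtain ⟨y', rfl⟩ := Ideal.mem_span_singleton'.1 hz'
  have h5 : G * (g * y - f * y') ∈ I := by
    have : G * (g * y - f * y') = f * i' - g * i := by
      linear_combination g * h3 - f * h4
    rw [this]
    exact I.sub_mem (I.mul_mem_left _ hi') (I.mul_mem_left _ hi)
  have h6 : g * y - f * y' ∈ I := (hp.mem_or_mem h5).resolve_left hG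
  have h7 : g * y ∈ I ⊔ Ideal.span {f} := by
    have : g * y = (g * y - f * y') + y' * f := by ring
    rw [this]
    exact Submodule.add_mem_sup h6 (Ideal.mul_mem_left _ _ (Ideal.mem_span_singleton_self f))
  obtain ⟨j, hj, w', hw', h8⟩ := Submodule.mem_sup.1 (hg y h7)
  obtain ⟨w, rfl⟩ := Ideal.mem_span_singleton'.1 hw'
  have h9 : f * (x - w * G) ∈ I := by
    have : f * (x - w * G) = i + j * G := by
      linear_combination (-1 : RR k) * h3 - G * h8
    rw [this]
    exact I.add_mem hi (I.mul_mem_right _ hj)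
  have h10 := hf _ h9
  have : x = (x - w * G) + w * G := by ring
  rw [this]
  exact Submodule.add_mem_sup h10 (Ideal.mul_mem_left _ _ (Ideal.mem_span_singleton_self G))

/-- prime avoidance -/
theorem exists_regular [Infinite k] {Z : Ideal (RR k)} (hZ : NoSocle Z) :
    ∃ L : RR k, L.IsHomogeneous 1 ∧ L ≠ 0 ∧ ∀ x, L * x ∈ Z → x ∈ Z := by
  classical
  have hfin : (associatedPrimes (RR k) (RR k ⧸ Z)).Finite := associatedPrimes.finite _ _
  let W : Ideal (RR k) → Submodule k (VV k 1) := fun p =>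
    (p.restrictScalars k).comap (VV k 1).subtype
  have hX : ∀ i : Fin 4, (X i : RR k) ∈ VV k 1 := fun i => isHomogeneous_X k i
  have hprop : ∀ p ∈ associatedPrimes (RR k) (RR k ⧸ Z), W p ≠ ⊤ := by
    intro p hp htop
    rw [AssociatedPrimes.mem_iff, isAssociatedPrime_iff] at hp
    obtain ⟨hprime, x, rfl⟩ := hp
    obtain ⟨x, rfl⟩ := Ideal.Quotient.mk_surjective x
    have h1 : ∀ i, X i * x ∈ Z := by
      intro i
      have h2 : (⟨X i, hX i⟩ : VV k 1) ∈ W _ := htop ▸ Submodule.mem_top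
      have h3 : (X i : RR k) ∈ Submodule.colon (⊥ : Submodule (RR k) (RR k ⧸ Z))
          {(Ideal.Quotient.mk Z) x} := h2
      rw [Submodule.mem_colon_singleton, Submodule.mem_bot] at h3
      exact Ideal.Quotient.eq_zero_iff_mem.1 (show Ideal.Quotient.mk Z (X i * x) = 0 from h3)
    have h4 := hZ x h1
    apply hprime.ne_top
    rw [Ideal.eq_top_iff_one, Submodule.mem_colon_singleton,
      Ideal.Quotient.eq_zero_iff_mem.2 h4]
    simp
  -- the zero subspace is added to have `L ≠ 0`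
  have hbot : (⊥ : Submodule k (VV k 1)) ≠ ⊤ := by
    intro h
    have h2 : (⟨X 0, hX 0⟩ : VV k 1) ∈ (⊥ : Submodule k (VV k 1)) := h ▸ Submodule.mem_top
    rw [Submodule.mem_bot] at h2
    exact (X_ne_zero (0 : Fin 4)) (congrArg Subtype.val h2)
  let S : Finset (Submodule k (VV k 1)) := insert ⊥ (hfin.toFinset.image W)
  have hS : ⊤ ∉ S := by
    intro h
    rcases Finset.mem_insert.1 h with h | h
    · exact hbot h.symm
    · obtain ⟨p, hp, hp2⟩ := Finset.mem_image.1 h
      exact hprop p (hfin.mem_toFinset.1 hp) hp2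
  have h1 := Subspace.biUnion_ne_univ_of_top_notMem hS
  obtain ⟨L, hL⟩ := (Set.ne_univ_iff_exists_notMem _).1 h1
  rw [Set.mem_iUnion₂] at hL
  push Not at hL
  refine ⟨L.1, L.2, ?_, ?_⟩
  · intro h0
    apply hL ⊥ (Finset.mem_insert_self _ _)
    rw [SetLike.mem_coe, Submodule.mem_bot]
    exact Subtype.ext h0
  · intro x hx
    by_contra hxZ
    have h2 : (L.1 : RR k) ∈ ⋃ p ∈ associatedPrimes (RR k) (RR k ⧸ Z), (p : Set (RR k)) := by
      rw [biUnion_associatedPrimes_eq_zero_divisors]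
      refine ⟨Ideal.Quotient.mk Z x, fun h => hxZ (Ideal.Quotient.eq_zero_iff_mem.1 h), ?_⟩
      exact (show Ideal.Quotient.mk Z (L.1 * x) = 0 from Ideal.Quotient.eq_zero_iff_mem.2 hx)
    rw [Set.mem_iUnion₂] at h2
    obtain ⟨p, hp, hp2⟩ := h2
    exact hL (W p) (Finset.mem_insert_of_mem (Finset.mem_image_of_mem W
      (hfin.mem_toFinset.2 hp))) hp2

end

end Pool.Agent.Helper95.MI
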